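import Pool.Agent.Q128.NS.Defs
import Pool.Agent.TH912.LG.Cover

set_option autoImplicit false

/-! Cyclic covers of instances, and their local views. -/

namespace Pool.Agent.Q128.NS

open Classical
open Pool.Agent.TH912.LS (ball mem_ball ball_self ball_symm ball_trans ball_mono ball_adj dc)
open Pool.Agent.TH912.LG (lift_cyc dc_cyc)
open Pool.Agent.W179.Erdos (FCyc)

variable {U C : Type} {p : ℕ}

/-- `y` is the end of the lift, starting at `x`, of an edge of the base -/
def Rel (G : SimpleGraph U) (g : U × U → ZMod p) (x y : (U × Bool) × ZMod p) : Prop :=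
  x.1.2 = true ∧ y.1.2 = false ∧ G.Adj x.1.1 y.1.1 ∧ y.2 = x.2 + g (x.1.1, y.1.1)

/-- the cyclic cover with the shifts `g` of the bipartite instance with the constraints `κ` -/
noncomputable def cov (G : SimpleGraph U) (g : U × U → ZMod p) (κ : U × U → C) :
    Inst C ((U × Bool) × ZMod p) where
  side x := x.1.2
  con x y := if Rel G g x y then some (κ (x.1.1, y.1.1)) else none

variable (G : SimpleGraph U) (g : U × U → ZMod p) (κ : U × U → C)

theorem con_pos {x y : (U × Bool) × ZMod p} (h : Rel G g x y) :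
    (cov G g κ).con x y = some (κ (x.1.1, y.1.1)) := if_pos h

theorem con_neg {x y : (U × Bool) × ZMod p} (h : ¬ Rel G g x y) :
    (cov G g κ).con x y = none := if_neg h

theorem con_ne {x y : (U × Bool) × ZMod p} : (cov G g κ).con x y ≠ none ↔ Rel G g x y := by
  unfold cov
  dsimp only
  split_ifs with h
  · exact ⟨fun _ => h, fun _ => by simp⟩
  · exact ⟨fun h' => absurd rfl h', fun h' => absurd h' h⟩

theorem con_some {x y : (U × Bool) × ZMod p} {c : C} :
    (cov G g κ).con x y = some c ↔ Rel G g x y ∧ κ (x.1.1, y.1.1) = c := by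
  unfold cov
  dsimp only
  split_ifs with h
  · simp only [Option.some.injEq]
    exact ⟨fun h' => ⟨h, h'⟩, fun h' => h'.2⟩
  · exact ⟨fun h' => absurd h' (by simp), fun h' => absurd h'.1 h⟩

theorem gr_iff {x y : (U × Bool) × ZMod p} :
    (cov G g κ).gr.Adj x y ↔ Rel G g x y ∨ Rel G g y x := by
  constructor
  · rintro ⟨_, h | h⟩
    · exact Or.inl ((con_ne G g κ).mp h)
    · exact Or.inr ((con_ne G g κ).mp h)
  · rintro (h | h)
    · refine ⟨?_, Or.inl ((con_ne G g κ).mpr h)⟩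
      rintro rfl
      have h1 := h.1
      rw [h.2.1] at h1
      exact absurd h1 (by simp)
    · refine ⟨?_, Or.inr ((con_ne G g κ).mpr h)⟩
      rintro rfl
      have h1 := h.1
      rw [h.2.1] at h1
      exact absurd h1 (by simp)

theorem gr_proj {x y : (U × Bool) × ZMod p} (h : (cov G g κ).gr.Adj x y) :
    (dc G).Adj x.1 y.1 := by
  rw [gr_iff] at h
  rcases h with h | h
  · exact ⟨h.2.2.1, by rw [h.1, h.2.1]; simp⟩
  · exact ⟨h.2.2.1.symm, by rw [h.1, h.2.1]; simp⟩

theorem gr_back {x y z : (U × Bool) × ZMod p} (h : (cov G g κ).gr.Adj x y)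
    (h' : (cov G g κ).gr.Adj y z) (hz : z.1 = x.1) : z = x := by
  rw [gr_iff] at h h'
  refine Prod.ext hz ?_
  rcases h with h | h <;> rcases h' with h' | h'
  · have := h.2.1
    rw [h'.1] at this
    exact absurd this (by simp)
  · have e1 := h.2.2.2
    have e2 := h'.2.2.2
    rw [hz, e1] at e2
    exact (add_right_cancel e2).symm
  · have e1 := h.2.2.2
    have e2 := h'.2.2.2
    rw [hz] at e2
    rw [e1, e2]
  · have := h.1
    rw [h'.2.1] at this
    exact absurd this (by simp)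

theorem gr_unique {x y z : (U × Bool) × ZMod p} (h : (cov G g κ).gr.Adj x y)
    (h' : (cov G g κ).gr.Adj x z) (hz : z.1 = y.1) : z = y :=
  gr_back G g κ h.symm h' hz

theorem gr_lift (x : (U × Bool) × ZMod p) {s : U × Bool} (h : (dc G).Adj x.1 s) :
    ∃ y, y.1 = s ∧ (cov G g κ).gr.Adj x y := by
  obtain ⟨⟨u, b⟩, z⟩ := x
  obtain ⟨v, b'⟩ := s
  obtain ⟨h1, h2⟩ := h
  simp only at h1 h2
  cases b
  · have hb : b' = true := by
      cases b'
      · exact absurd rfl h2
      · rfl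
    subst hb
    refine ⟨((v, true), z - g (v, u)), rfl, ?_⟩
    rw [gr_iff]
    exact Or.inr ⟨rfl, rfl, h1.symm, by simp⟩
  · have hb : b' = false := by
      cases b'
      · rfl
      · exact absurd rfl h2
    subst hb
    refine ⟨((v, false), z + g (u, v)), rfl, ?_⟩
    rw [gr_iff]
    exact Or.inl ⟨rfl, rfl, h1, rfl⟩

theorem ball_proj {x y : (U × Bool) × ZMod p} {n : ℕ} (h : y ∈ ball (cov G g κ).gr x n) :
    y.1 ∈ ball (dc G) x.1 n := by
  obtain ⟨w, hw⟩ := h
  suffices H : ∀ (x y : (U × Bool) × ZMod p) (w : (cov G g κ).gr.Walk x y),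
      ∃ w' : (dc G).Walk x.1 y.1, w'.length = w.length by
    obtain ⟨w', hw'⟩ := H x y w
    exact ⟨w', by omega⟩
  intro x y w
  induction w with
  | nil => exact ⟨SimpleGraph.Walk.nil, rfl⟩
  | @cons x z y h w ih =>
    obtain ⟨w', hw'⟩ := ih
    exact ⟨SimpleGraph.Walk.cons (gr_proj G g κ h) w', by
      rw [SimpleGraph.Walk.length_cons, SimpleGraph.Walk.length_cons, hw']⟩

theorem ball_lift (x : (U × Bool) × ZMod p) {s : U × Bool} {n : ℕ}
    (h : s ∈ ball (dc G) x.1 n) : ∃ y, y.1 = s ∧ y ∈ ball (cov G g κ).gr x n := by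
  obtain ⟨w, hw⟩ := h
  suffices H : ∀ (s s' : U × Bool) (w : (dc G).Walk s s') (x : (U × Bool) × ZMod p), x.1 = s →
      ∃ y, y.1 = s' ∧ ∃ w' : (cov G g κ).gr.Walk x y, w'.length = w.length by
    obtain ⟨y, hy, w', hw'⟩ := H x.1 s w x rfl
    exact ⟨y, hy, w', by omega⟩
  intro s s' w
  induction w with
  | nil => exact fun x hx => ⟨x, hx, SimpleGraph.Walk.nil, rfl⟩
  | @cons a b c h w ih =>
    intro x hx
    subst hx
    obtain ⟨z, hz, hxz⟩ := gr_lift G g κ x h
    obtain ⟨y, hy, w', hw'⟩ := ih z hz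
    exact ⟨y, hy, SimpleGraph.Walk.cons hxz w', by
      rw [SimpleGraph.Walk.length_cons, SimpleGraph.Walk.length_cons, hw']⟩

/-- the projection is injective on small balls -/
theorem far {L : ℕ} (hL : ∀ l φ, FCyc G l φ → L < l) {x y : (U × Bool) × ZMod p}
    (h : y ∈ ball (cov G g κ).gr x L) (hy : y.1 = x.1) : y = x := by
  obtain ⟨w, hw⟩ := h
  by_contra hne
  obtain ⟨l, h, hl, hc⟩ := lift_cyc (D := dc G) (H := (cov G g κ).gr) Prod.fst
    (fun s s' hs => gr_proj G g κ hs) (fun s s' s'' h1 h2 h3 => gr_back G g κ h1 h2 h3)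
    w.length (fun i => w.getVert i) (fun i hi => w.adj_getVert_succ hi)
    (by simp [hy]) (by
      simp only [SimpleGraph.Walk.getVert_length, SimpleGraph.Walk.getVert_zero]
      exact hne)
  obtain ⟨l', h', hl', hc'⟩ := dc_cyc hc
  have := hL l' h' hc'
  omega

/-- the tuple `a` is spread: entries with close projections are close -/
def Spread {k : ℕ} (a : Fin k → (U × Bool) × ZMod p) (r m : ℕ) : Prop :=
  ∀ i j, (a j).1 ∈ ball (dc G) (a i).1 (2 * r + 1) → a j ∈ ball (cov G g κ).gr (a i) m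

theorem Spread.inj {k : ℕ} {a : Fin k → (U × Bool) × ZMod p} {r m L : ℕ}
    (ha : Spread G g κ a r m) (hm : m + 2 * r + 1 ≤ L) (hL : ∀ l φ, FCyc G l φ → L < l)
    {x y : (U × Bool) × ZMod p} (hx : x ∈ near (cov G g κ) a r) (hy : y ∈ near (cov G g κ) a r)
    (hxy : x.1 = y.1) : x = y := by
  obtain ⟨i, hi⟩ := hx
  obtain ⟨j, hj⟩ := hy
  have h1 := ball_proj G g κ hi
  have h2 := ball_proj G g κ hj
  rw [← hxy] at h2
  have h3 : (a j).1 ∈ ball (dc G) (a i).1 (2 * r + 1) :=
    ball_mono (ball_trans h1 (ball_symm h2)) (by omega)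
  have h4 := ha i j h3
  exact far G g κ hL (ball_mono (ball_trans (ball_symm hj) (ball_trans (ball_symm h4) hi))
    (by omega)) hxy

theorem Spread.adj {k : ℕ} {a : Fin k → (U × Bool) × ZMod p} {r m L : ℕ}
    (ha : Spread G g κ a r m) (hm : m + 2 * r + 1 ≤ L) (hL : ∀ l φ, FCyc G l φ → L < l)
    {x y : (U × Bool) × ZMod p} (hx : x ∈ near (cov G g κ) a r) (hy : y ∈ near (cov G g κ) a r)
    (hxy : x.1.2 = true ∧ y.1.2 = false ∧ G.Adj x.1.1 y.1.1) : Rel G g x y := by
  obtain ⟨i, hi⟩ := hx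
  obtain ⟨j, hj⟩ := hy
  have hd : (dc G).Adj x.1 y.1 := ⟨hxy.2.2, by rw [hxy.1, hxy.2.1]; simp⟩
  obtain ⟨z, hz, hxz⟩ := gr_lift G g κ x hd
  have h1 := ball_proj G g κ hi
  have h2 := ball_proj G g κ hj
  have h3 : (a j).1 ∈ ball (dc G) (a i).1 (2 * r + 1) :=
    ball_mono (ball_trans (ball_trans h1 (ball_adj hd)) (ball_symm h2)) (by omega)
  have h4 := ha i j h3
  have h5 : z = y := far G g κ hL (ball_mono (ball_trans (ball_symm hj)
    (ball_trans (ball_trans (ball_symm h4) hi) (ball_adj hxz))) (by omega)) hz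
  subst h5
  rw [gr_iff] at hxz
  rcases hxz with h | h
  · exact h
  · have h6 := h.1
    rw [hxy.2.1] at h6
    exact absurd h6 (by simp)

/-- two covers look the same near spread tuples over the same vertices of the base -/
theorem sameView (g' : U × U → ZMod p) {k : ℕ} {a a' : Fin k → (U × Bool) × ZMod p}
    {r m m' L : ℕ} (ha : Spread G g κ a r m) (ha' : Spread G g' κ a' r m')
    (hm : m + 2 * r + 1 ≤ L) (hm' : m' + 2 * r + 1 ≤ L) (hL : ∀ l φ, FCyc G l φ → L < l)
    (haa : ∀ i, (a i).1 = (a' i).1) : SameView r (cov G g κ) a (cov G g' κ) a' := by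
  let N : Set (U × Bool) := {s | ∃ i, s ∈ ball (dc G) (a i).1 r}
  let f : near (cov G g κ) a r → N := fun x => ⟨x.1.1, by
    obtain ⟨i, hi⟩ := x.2
    exact ⟨i, ball_proj G g κ hi⟩⟩
  let f' : near (cov G g' κ) a' r → N := fun x => ⟨x.1.1, by
    obtain ⟨i, hi⟩ := x.2
    refine ⟨i, ?_⟩
    rw [haa]
    exact ball_proj G g' κ hi⟩
  have hf : Function.Bijective f := by
    refine ⟨fun x y hxy => ?_, ?_⟩
    · exact Subtype.ext (ha.inj G g κ hm hL x.2 y.2 (congrArg Subtype.val hxy))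
    · rintro ⟨s, i, hi⟩
      obtain ⟨y, hy, hy'⟩ := ball_lift G g κ (a i) hi
      exact ⟨⟨y, i, hy'⟩, Subtype.ext hy⟩
  have hf' : Function.Bijective f' := by
    refine ⟨fun x y hxy => ?_, ?_⟩
    · exact Subtype.ext (ha'.inj G g' κ hm' hL x.2 y.2 (congrArg Subtype.val hxy))
    · rintro ⟨s, i, hi⟩
      rw [haa] at hi
      obtain ⟨y, hy, hy'⟩ := ball_lift G g' κ (a' i) hi
      exact ⟨⟨y, i, hy'⟩, Subtype.ext hy⟩
  let e := (Equiv.ofBijective f hf).trans (Equiv.ofBijective f' hf').symm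
  have he : ∀ x, (e x : (U × Bool) × ZMod p).1 = (x : (U × Bool) × ZMod p).1 := by
    intro x
    have h1 : f' (e x) = f x := (Equiv.ofBijective f' hf').apply_symm_apply (f x)
    exact congrArg Subtype.val h1
  refine ⟨e, ?_, ?_, ?_⟩
  · intro i x hx
    have h1 : a' i ∈ near (cov G g' κ) a' r := ⟨i, ball_self _ _ _⟩
    exact ha'.inj G g' κ hm' hL (e x).2 h1 (by rw [he, hx, haa])
  · intro x
    show (x : (U × Bool) × ZMod p).1.2 = (e x : (U × Bool) × ZMod p).1.2
    rw [he]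
  · intro x y
    by_cases h : (x : (U × Bool) × ZMod p).1.2 = true ∧ (y : (U × Bool) × ZMod p).1.2 = false ∧
        G.Adj (x : (U × Bool) × ZMod p).1.1 (y : (U × Bool) × ZMod p).1.1
    · rw [con_pos G g κ (ha.adj G g κ hm hL x.2 y.2 h),
        con_pos G g' κ (ha'.adj G g' κ hm' hL (e x).2 (e y).2 (by rw [he, he]; exact h)), he, he]
    · rw [con_neg G g κ fun h' => h ⟨h'.1, h'.2.1, h'.2.2.1⟩, con_neg G g' κ fun h' => h ?_]
      obtain ⟨h1, h2, h3, -⟩ := h'
      rw [he] at h1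
      rw [he] at h2
      rw [he, he] at h3
      exact ⟨h1, h2, h3⟩

end Pool.Agent.Q128.NS
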