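import Pool.Agent.TH912.LS.Defs

set_option autoImplicit false

/-! Instances with binary constraints, local views of tuples of vertices, and non-signalling local
processes: definitions. -/

namespace Pool.Agent.Q128.NS

open Classical
open Pool.Agent.TH912.LS (ball)

/-- An instance on the vertex set `V` with constraints from `C`: every vertex is on one of two
sides, and `con u v = some c` means that there is the constraint `c` from `u` to `v`. -/
structure Inst (C V : Type) where
  side : V → Bool
  con : V → V → Option C

/-- the constraint graph -/
def Inst.gr {C V : Type} (X : Inst C V) : SimpleGraph V where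
  Adj u v := u ≠ v ∧ (X.con u v ≠ none ∨ X.con v u ≠ none)
  symm := ⟨fun _ _ h => ⟨h.1.symm, h.2.symm⟩⟩
  loopless := ⟨fun _ h => h.1 rfl⟩

/-- the number of constraints -/
noncomputable def numCon {C V : Type} (X : Inst C V) : ℕ :=
  {e : V × V | X.con e.1 e.2 ≠ none}.ncard

/-- the vertices at distance at most `r` from some entry of the tuple `a` -/
def near {C V : Type} {k : ℕ} (X : Inst C V) (a : Fin k → V) (r : ℕ) : Set V :=
  {x | ∃ i, x ∈ ball X.gr (a i) r}

/-- The radius-`r` view of the tuple `a` in `X` is isomorphic to the radius-`r` view of the tuple
`a'` in `X'`: a bijection between the two neighbourhoods maps the entries of `a` to those of `a'`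
and preserves sides and constraints. -/
def SameView (r : ℕ) {C V V' : Type} {k : ℕ} (X : Inst C V) (a : Fin k → V)
    (X' : Inst C V') (a' : Fin k → V') : Prop :=
  ∃ e : near X a r ≃ near X' a' r,
    (∀ (i : Fin k) (x : near X a r), (x : V) = a i → (e x : V') = a' i) ∧
    (∀ x : near X a r, X.side (x : V) = X'.side (e x : V')) ∧
    (∀ x y : near X a r, X.con (x : V) (y : V) = X'.con (e x : V') (e y : V'))

/-- The probability of the event `E` if `w` is the law of a random element of a finite set. -/
noncomputable def pr {Ω : Type} (w : Ω → ℝ) (E : Ω → Prop) : ℝ :=
  ∑ᶠ L, if E L then w L else 0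

/-- A non-signalling process of locality `r` on the instances with vertex set `V`: to each instance
it assigns the law of a random labelling of the vertices by elements of `S`; the joint law of the
labels of the entries of a tuple depends only on the isomorphism type of the radius-`r` view of the
tuple. -/
structure Process (C S V : Type) (r : ℕ) where
  law : Inst C V → (V → S) → ℝ
  nonneg : ∀ X L, 0 ≤ law X L
  total : ∀ X, ∑ᶠ L, law X L = 1
  nonsignalling : ∀ (X X' : Inst C V) (k : ℕ) (a a' : Fin k → V), SameView r X a X' a' →
    ∀ s : Fin k → S, pr (law X) (fun L => ∀ i, L (a i) = s i) =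
      pr (law X') (fun L => ∀ i, L (a' i) = s i)

end Pool.Agent.Q128.NS
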