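import Pool.Agent.Q128.NS.Defs

set_option autoImplicit false

/-! Moments of the number of satisfied constraints. -/

namespace Pool.Agent.Q128.NS

open Classical Finset

section law

variable {Ω Ω' : Type} [Fintype Ω] [Fintype Ω'] {w : Ω → ℝ} {w' : Ω' → ℝ}

theorem pr_eq (w : Ω → ℝ) (E : Ω → Prop) : pr w E = ∑ ω, if E ω then w ω else 0 :=
  finsum_eq_sum_of_fintype _

theorem pr_nonneg (hw : ∀ ω, 0 ≤ w ω) (E : Ω → Prop) : 0 ≤ pr w E := by
  rw [pr_eq]
  refine sum_nonneg fun ω _ => ?_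
  split_ifs
  · exact hw ω
  · exact le_rfl

theorem pr_le_one (hw : ∀ ω, 0 ≤ w ω) (h1 : ∑ ω, w ω = 1) (E : Ω → Prop) : pr w E ≤ 1 := by
  rw [← h1, pr_eq]
  refine sum_le_sum fun ω _ => ?_
  split_ifs
  · exact le_rfl
  · exact hw ω

theorem pr_fiber {T : Type} [Fintype T] (f : Ω → T) (Φ : T → Prop) :
    pr w (fun ω => Φ (f ω)) = ∑ s, if Φ s then pr w (fun ω => f ω = s) else 0 := by
  simp only [pr_eq]
  have h1 : ∀ s, (if Φ s then ∑ ω, (if f ω = s then w ω else 0) else 0) =
      ∑ ω, if f ω = s then (if Φ s then w ω else 0) else 0 := by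
    intro s
    split_ifs with h
    · rfl
    · simp
  simp_rw [h1]
  rw [sum_comm]
  refine sum_congr rfl fun ω _ => ?_
  rw [sum_ite_eq]
  simp

theorem Process.view {C S V : Type} [Finite S] [Finite V] {r : ℕ} (P : Process C S V r)
    {X X' : Inst C V} {k : ℕ} {a a' : Fin k → V} (h : SameView r X a X' a')
    (Φ : (Fin k → S) → Prop) :
    pr (P.law X) (fun L => Φ (fun i => L (a i))) =
      pr (P.law X') (fun L => Φ (fun i => L (a' i))) := by
  have : Fintype (V → S) := Fintype.ofFinite _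
  have : Fintype S := Fintype.ofFinite _
  rw [pr_fiber (fun (L : V → S) i => L (a i)) Φ, pr_fiber (fun (L : V → S) i => L (a' i)) Φ]
  refine sum_congr rfl fun s _ => ?_
  split_ifs
  · have h1 := P.nonsignalling X X' k a a' h s
    simpa only [funext_iff] using h1
  · rfl

variable {T0 : Type} (T : Finset T0) (Sat : Ω → T0 → Prop)
  (Sat' : Ω' → T0 → Prop)

theorem moment_eq (k : ℕ) : ∑ ω, w ω * ((T.filter (Sat ω)).card : ℝ) ^ k =
    ∑ t ∈ Fintype.piFinset (fun _ : Fin k => T), pr w (fun ω => ∀ i, Sat ω (t i)) := by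
  simp only [pr_eq]
  rw [sum_comm]
  refine sum_congr rfl fun ω _ => ?_
  have h1 : ((T.filter (Sat ω)).card : ℝ) ^ k =
      ((Fintype.piFinset (fun _ : Fin k => T.filter (Sat ω))).card : ℝ) := by
    rw [Fintype.card_piFinset_const]
    push_cast
    rfl
  have h2 : Fintype.piFinset (fun _ : Fin k => T.filter (Sat ω)) =
      (Fintype.piFinset (fun _ : Fin k => T)).filter (fun t => ∀ i, Sat ω (t i)) := by
    ext t
    simp only [Fintype.mem_piFinset, mem_filter]
    exact forall_and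
  rw [h1, h2, card_filter]
  push_cast
  rw [mul_sum]
  refine sum_congr rfl fun t _ => ?_
  by_cases h : ∀ i, Sat ω (t i)
  · rw [if_pos h, if_pos h, mul_one]
  · rw [if_neg h, if_neg h, mul_zero]

/-- tuples with two related entries are rare -/
theorem count_pairs {k : ℕ} (R : T0 → T0 → Prop) {B : ℕ}
    (hB : ∀ t ∈ T, (T.filter (R t)).card ≤ B) {i j : Fin k} (hij : i ≠ j) :
    ((Fintype.piFinset (fun _ : Fin k => T)).filter (fun t => R (t i) (t j))).card * T.card ≤
      T.card ^ k * B := by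
  rw [← card_product]
  have h1 : ((Fintype.piFinset (fun _ : Fin k => T)).sigma
      (fun t => T.filter (R (t i)))).card ≤ T.card ^ k * B := by
    rw [card_sigma]
    refine (sum_le_card_nsmul _ _ B fun t ht => hB _ (Fintype.mem_piFinset.mp ht i)).trans ?_
    rw [Fintype.card_piFinset_const, smul_eq_mul]
  refine le_trans ?_ h1
  refine card_le_card_of_injOn
    (fun z : (Fin k → T0) × T0 => (⟨Function.update z.1 j z.2, z.1 j⟩ : Σ _ : Fin k → T0, T0))
    ?_ ?_
  · rintro ⟨t, s⟩ hz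
    simp only [coe_product, Set.mem_prod, mem_coe, mem_filter, Fintype.mem_piFinset] at hz
    simp only [mem_coe, mem_sigma, Fintype.mem_piFinset, mem_filter]
    refine ⟨fun l => ?_, hz.1.1 j, ?_⟩
    · by_cases h : l = j
      · subst h
        rw [Function.update_self]
        exact hz.2
      · rw [Function.update_of_ne h]
        exact hz.1.1 l
    · rw [Function.update_of_ne hij]
      exact hz.1.2
  · rintro ⟨t, s⟩ _ ⟨t', s'⟩ _ h
    simp only [Sigma.mk.injEq, heq_eq_eq] at h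
    obtain ⟨h2, h3⟩ := h
    have h4 : s = s' := by
      have := congrFun h2 j
      rwa [Function.update_self, Function.update_self] at this
    refine Prod.ext (funext fun l => ?_) h4
    by_cases h : l = j
    · subst h
      exact h3
    · have := congrFun h2 l
      rwa [Function.update_of_ne h, Function.update_of_ne h] at this

theorem moment_le {k : ℕ} (hw : ∀ ω, 0 ≤ w ω) (hw1 : ∑ ω, w ω = 1) (hw' : ∀ ω, 0 ≤ w' ω)
    (hw1' : ∑ ω, w' ω = 1) (R : T0 → T0 → Prop) {B : ℕ} (hT : 0 < T.card)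
    (hB : ∀ t ∈ T, (T.filter (R t)).card ≤ B)
    (hsame : ∀ t ∈ Fintype.piFinset (fun _ : Fin k => T), (∀ i j, i ≠ j → ¬ R (t i) (t j)) →
      pr w (fun ω => ∀ i, Sat ω (t i)) = pr w' (fun ω => ∀ i, Sat' ω (t i)))
    {δ : ℝ} (hδ : ∀ ω, ((T.filter (Sat' ω)).card : ℝ) ≤ δ * T.card) :
    ∑ ω, w ω * ((T.filter (Sat ω)).card : ℝ) ^ k ≤
      (δ * T.card) ^ k + k ^ 2 * ((T.card : ℝ) ^ k * (B / T.card)) := by
  have hT0 : (0 : ℝ) < T.card := by exact_mod_cast hT
  rw [moment_eq]
  have hsplit := sum_filter_add_sum_filter_not (Fintype.piFinset (fun _ : Fin k => T))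
    (fun t => ∀ i j, i ≠ j → ¬ R (t i) (t j)) (fun t => pr w (fun ω => ∀ i, Sat ω (t i)))
  rw [← hsplit]
  refine add_le_add ?_ ?_
  · calc ∑ t ∈ (Fintype.piFinset (fun _ : Fin k => T)).filter
          (fun t => ∀ i j, i ≠ j → ¬ R (t i) (t j)), pr w (fun ω => ∀ i, Sat ω (t i))
        = ∑ t ∈ (Fintype.piFinset (fun _ : Fin k => T)).filter
          (fun t => ∀ i j, i ≠ j → ¬ R (t i) (t j)), pr w' (fun ω => ∀ i, Sat' ω (t i)) :=
          sum_congr rfl fun t ht => hsame t (mem_filter.mp ht).1 (mem_filter.mp ht).2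
      _ ≤ ∑ t ∈ Fintype.piFinset (fun _ : Fin k => T), pr w' (fun ω => ∀ i, Sat' ω (t i)) :=
          sum_le_sum_of_subset_of_nonneg (filter_subset _ _) fun t _ _ => pr_nonneg hw' _
      _ = ∑ ω, w' ω * ((T.filter (Sat' ω)).card : ℝ) ^ k := (moment_eq T Sat' k).symm
      _ ≤ ∑ ω, w' ω * (δ * T.card) ^ k := by
          refine sum_le_sum fun ω _ => mul_le_mul_of_nonneg_left ?_ (hw' ω)
          exact pow_le_pow_left₀ (Nat.cast_nonneg _) (hδ ω) k
      _ = (δ * T.card) ^ k := by rw [← sum_mul, hw1', one_mul]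
  · calc ∑ t ∈ (Fintype.piFinset (fun _ : Fin k => T)).filter
          (fun t => ¬ ∀ i j, i ≠ j → ¬ R (t i) (t j)), pr w (fun ω => ∀ i, Sat ω (t i))
        ≤ ∑ t ∈ (Fintype.piFinset (fun _ : Fin k => T)).filter
          (fun t => ¬ ∀ i j, i ≠ j → ¬ R (t i) (t j)), (1 : ℝ) :=
          sum_le_sum fun t _ => pr_le_one hw hw1 _
      _ = (((Fintype.piFinset (fun _ : Fin k => T)).filter
          (fun t => ¬ ∀ i j, i ≠ j → ¬ R (t i) (t j))).card : ℝ) := by
          rw [sum_const, nsmul_eq_mul, mul_one]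
      _ ≤ ∑ z ∈ (univ : Finset (Fin k × Fin k)).filter (fun z => z.1 ≠ z.2),
            (((Fintype.piFinset (fun _ : Fin k => T)).filter
              (fun t => R (t z.1) (t z.2))).card : ℝ) := by
          rw [← Nat.cast_sum, Nat.cast_le]
          refine le_trans (card_le_card ?_) card_biUnion_le
          intro t ht
          rw [mem_filter] at ht
          obtain ⟨ht1, ht2⟩ := ht
          push Not at ht2
          obtain ⟨i, j, hij, hR⟩ := ht2
          rw [mem_biUnion]
          exact ⟨(i, j), by simp [hij], mem_filter.mpr ⟨ht1, hR⟩⟩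
      _ ≤ ∑ z ∈ (univ : Finset (Fin k × Fin k)).filter (fun z => z.1 ≠ z.2),
            ((T.card : ℝ) ^ k * (B / T.card)) := by
          refine sum_le_sum fun z hz => ?_
          have h1 := count_pairs T R hB (k := k) (i := z.1) (j := z.2) (mem_filter.mp hz).2
          rw [← mul_div_assoc, le_div_iff₀ hT0]
          exact_mod_cast h1
      _ ≤ k ^ 2 * ((T.card : ℝ) ^ k * (B / T.card)) := by
          rw [sum_const, nsmul_eq_mul]
          refine mul_le_mul_of_nonneg_right ?_ (by positivity)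
          have h1 : ((univ : Finset (Fin k × Fin k)).filter (fun z => z.1 ≠ z.2)).card ≤
              (univ : Finset (Fin k × Fin k)).card := card_le_card (filter_subset _ _)
          rw [card_univ, Fintype.card_prod, Fintype.card_fin] at h1
          have h2 : (((univ : Finset (Fin k × Fin k)).filter (fun z => z.1 ≠ z.2)).card : ℝ) ≤
              ((k * k : ℕ) : ℝ) := by exact_mod_cast h1
          refine h2.trans (le_of_eq ?_)
          push_cast
          ring

theorem tail {k : ℕ} (hw : ∀ ω, 0 ≤ w ω) (hw1 : ∑ ω, w ω = 1) (hw' : ∀ ω, 0 ≤ w' ω)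
    (hw1' : ∑ ω, w' ω = 1) (R : T0 → T0 → Prop) {B : ℕ} (hT : 0 < T.card)
    (hB : ∀ t ∈ T, (T.filter (R t)).card ≤ B)
    (hsame : ∀ t ∈ Fintype.piFinset (fun _ : Fin k => T), (∀ i j, i ≠ j → ¬ R (t i) (t j)) →
      pr w (fun ω => ∀ i, Sat ω (t i)) = pr w' (fun ω => ∀ i, Sat' ω (t i)))
    {δ ε : ℝ} (hε : 0 < ε) (hδ : ∀ ω, ((T.filter (Sat' ω)).card : ℝ) ≤ δ * T.card) :
    pr w (fun ω => ε * T.card < ((T.filter (Sat ω)).card : ℝ)) ≤
      (δ / ε) ^ k + k ^ 2 * (B / T.card) / ε ^ k := by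
  have hT0 : (0 : ℝ) < T.card := by exact_mod_cast hT
  have h1 := moment_le T Sat Sat' (k := k) hw hw1 hw' hw1' R hT hB hsame hδ
  have h2 : pr w (fun ω => ε * T.card < ((T.filter (Sat ω)).card : ℝ)) * (ε * T.card) ^ k ≤
      ∑ ω, w ω * ((T.filter (Sat ω)).card : ℝ) ^ k := by
    rw [pr_eq, sum_mul]
    refine sum_le_sum fun ω _ => ?_
    split_ifs with h
    · refine mul_le_mul_of_nonneg_left ?_ (hw ω)
      exact pow_le_pow_left₀ (by positivity) h.le k
    · rw [zero_mul]
      exact mul_nonneg (hw ω) (by positivity)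
  have h3 := h2.trans h1
  rw [← le_div_iff₀ (by positivity)] at h3
  refine h3.trans (le_of_eq ?_)
  rw [mul_pow, mul_pow, div_pow]
  field_simp

end law

end Pool.Agent.Q128.NS
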