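import Pool.Agent.Q128.NS.Cov
import Pool.Agent.Q128.NS.Moment

set_option autoImplicit false

/-! Non-signalling processes on cyclic covers satisfy as few constraints as possible in the base. -/

namespace Pool.Agent.Q128.NS

open Classical Finset
open Pool.Agent.TH912.LS (ball mem_ball ball_self ball_symm ball_trans ball_mono ball_adj dc)
open Pool.Agent.W179.Erdos (FCyc)

/-- the number of constraints satisfied by the labelling `L` -/
noncomputable def numSatG {C S V : Type} (X : Inst C V) (sat : C → S → S → Prop) (L : V → S) : ℕ :=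
  {e : V × V | ∃ c, X.con e.1 e.2 = some c ∧ sat c (L e.1) (L e.2)}.ncard

section ballcard

variable {W : Type} [Finite W] {H : SimpleGraph W}

theorem ncard_ball {d : ℕ} (hd : ∀ u, (H.neighborSet u).ncard ≤ d) (a : W) :
    ∀ R : ℕ, (ball H a R).ncard ≤ (d + 1) ^ R := by
  have : Fintype W := Fintype.ofFinite W
  intro R
  induction R with
  | zero =>
    have h : ball H a 0 ⊆ {a} := by
      rintro u ⟨w, hw⟩
      cases w with
      | nil => rfl
      | cons _ w => simp at hw
    refine (Set.ncard_le_ncard h (Set.toFinite _)).trans ?_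
    simp
  | succ R ih =>
    have h : ball H a (R + 1) ⊆
        ((ball H a R).toFinset.biUnion fun v => insert v (H.neighborSet v).toFinset : Finset W) := by
      intro u hu
      obtain ⟨w, hw⟩ := ball_symm hu
      rw [mem_coe, mem_biUnion]
      cases w with
      | nil => exact ⟨a, by simpa using ball_self H a R, mem_insert_self _ _⟩
      | @cons _ v _ h w =>
        rw [SimpleGraph.Walk.length_cons] at hw
        refine ⟨v, ?_, ?_⟩
        · rw [Set.mem_toFinset]
          exact ball_symm ⟨w, by omega⟩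
        · rw [mem_insert, Set.mem_toFinset]
          exact Or.inr h.symm
    refine (Set.ncard_le_ncard h (Set.toFinite _)).trans ?_
    rw [Set.ncard_coe_finset]
    refine (card_biUnion_le_card_mul _ _ (d + 1) fun v _ => ?_).trans ?_
    · refine (card_insert_le _ _).trans ?_
      have := hd v
      rw [Set.ncard_eq_toFinset_card'] at this
      omega
    · rw [← Set.ncard_eq_toFinset_card', pow_succ]
      exact Nat.mul_le_mul_right _ ih

end ballcard

variable {U C S : Type} [Fintype U] {p : ℕ} [NeZero p] (G : SimpleGraph U)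
  (g : U × U → ZMod p) (κ : U × U → C) (sat : C → S → S → Prop)

/-- the edges of the base, one for each constraint -/
noncomputable def E0 : Finset (U × U) := univ.filter fun e : U × U => G.Adj e.1 e.2

/-- the constraints of the cover -/
noncomputable def T0 (p : ℕ) [NeZero p] : Finset ((U × U) × ZMod p) := E0 G ×ˢ univ

/-- the two ends of a constraint of the cover -/
def src (t : (U × U) × ZMod p) : (U × Bool) × ZMod p := ((t.1.1, true), t.2)

/-- the second end -/
def tgt (t : (U × U) × ZMod p) : (U × Bool) × ZMod p := ((t.1.2, false), t.2 + g t.1)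

/-- the labelling `L` satisfies the constraint `t` -/
def SatG (L : (U × Bool) × ZMod p → S) (t : (U × U) × ZMod p) : Prop :=
  sat (κ t.1) (L (src t)) (L (tgt g t))

omit [Fintype U] [NeZero p] in
theorem pair_inj : Function.Injective (fun t : (U × U) × ZMod p => (src t, tgt g t)) := by
  rintro ⟨⟨u, v⟩, x⟩ ⟨⟨u', v'⟩, x'⟩ h
  simp only [src, tgt, Prod.mk.injEq, and_true] at h
  obtain ⟨⟨rfl, rfl⟩, rfl, _⟩ := h
  rfl

omit [Fintype U] [NeZero p] in
theorem rel_iff {x y : (U × Bool) × ZMod p} :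
    Rel G g x y ↔ ∃ t : (U × U) × ZMod p, G.Adj t.1.1 t.1.2 ∧ src t = x ∧ tgt g t = y := by
  constructor
  · rintro ⟨h1, h2, h3, h4⟩
    refine ⟨((x.1.1, y.1.1), x.2), h3, ?_, ?_⟩
    · simp only [src]
      ext <;> simp [h1]
    · simp only [tgt]
      ext <;> simp [h2, h4]
  · rintro ⟨t, h, rfl, rfl⟩
    exact ⟨rfl, rfl, h, rfl⟩

theorem card_T0 : (T0 G p).card = (E0 G).card * p := by
  unfold T0
  rw [card_product, card_univ, ZMod.card]

theorem mem_T0 {t : (U × U) × ZMod p} : t ∈ T0 G p ↔ G.Adj t.1.1 t.1.2 := by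
  unfold T0 E0
  simp

theorem numCon_cov : numCon (cov G g κ) = (T0 G p).card := by
  have h1 : {e : ((U × Bool) × ZMod p) × ((U × Bool) × ZMod p) |
      (cov G g κ).con e.1 e.2 ≠ none} =
      (fun t : (U × U) × ZMod p => (src t, tgt g t)) '' (T0 G p : Set ((U × U) × ZMod p)) := by
    ext ⟨x, y⟩
    rw [Set.mem_ofPred_eq, con_ne, rel_iff]
    constructor
    · rintro ⟨t, h1, h2, h3⟩
      exact ⟨t, mem_coe.mpr ((mem_T0 G).mpr h1), Prod.ext h2 h3⟩
    · rintro ⟨t, h1, h2⟩
      exact ⟨t, (mem_T0 G).mp (mem_coe.mp h1), congrArg Prod.fst h2, congrArg Prod.snd h2⟩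
  unfold numCon
  rw [h1, Set.ncard_image_of_injective _ (pair_inj g), Set.ncard_coe_finset]

theorem numSat_cov (L : (U × Bool) × ZMod p → S) :
    numSatG (cov G g κ) sat L = ((T0 G p).filter (SatG g κ sat L)).card := by
  have h1 : {e : ((U × Bool) × ZMod p) × ((U × Bool) × ZMod p) |
      ∃ c, (cov G g κ).con e.1 e.2 = some c ∧ sat c (L e.1) (L e.2)} =
      (fun t : (U × U) × ZMod p => (src t, tgt g t)) ''
        (((T0 G p).filter (SatG g κ sat L) : Finset _) : Set ((U × U) × ZMod p)) := by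
    ext ⟨x, y⟩
    rw [Set.mem_ofPred_eq]
    constructor
    · rintro ⟨c, h1, h2⟩
      rw [con_some, rel_iff] at h1
      obtain ⟨⟨t, h3, rfl, rfl⟩, rfl⟩ := h1
      exact ⟨t, mem_coe.mpr (mem_filter.mpr ⟨(mem_T0 G).mpr h3, h2⟩), rfl⟩
    · rintro ⟨t, h1, h2⟩
      rw [mem_coe, mem_filter, mem_T0] at h1
      rw [Prod.mk.injEq] at h2
      obtain ⟨rfl, rfl⟩ := h2
      refine ⟨κ t.1, ?_, h1.2⟩
      rw [con_some]
      exact ⟨(rel_iff G g).mpr ⟨t, h1.1, rfl, rfl⟩, rfl⟩
  unfold numSatG
  rw [h1, Set.ncard_image_of_injective _ (pair_inj g), Set.ncard_coe_finset]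

/-- a bound for the labellings of the base is a bound for the trivial cover -/
theorem base_value {δ : ℝ}
    (hval : ∀ l : U × Bool → S, (((E0 G).filter fun e =>
      sat (κ e) (l (e.1, true)) (l (e.2, false))).card : ℝ) ≤ δ * (E0 G).card)
    (L : (U × Bool) × ZMod p → S) :
    (((T0 G p).filter (SatG 0 κ sat L)).card : ℝ) ≤ δ * (T0 G p).card := by
  have h1 : ((T0 G p).filter (SatG 0 κ sat L)).card =
      ∑ z : ZMod p, ((E0 G).filter fun e =>
        sat (κ e) (L ((e.1, true), z)) (L ((e.2, false), z))).card := by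
    rw [card_filter]
    unfold T0
    rw [sum_product_right]
    refine sum_congr rfl fun z _ => ?_
    rw [card_filter]
    refine sum_congr rfl fun e _ => ?_
    have h2 : SatG 0 κ sat L (e, z) ↔ sat (κ e) (L ((e.1, true), z)) (L ((e.2, false), z)) := by
      unfold SatG src tgt
      simp
    simp only [h2]
  rw [h1, card_T0]
  push_cast
  calc ∑ z : ZMod p, (((E0 G).filter fun e =>
        sat (κ e) (L ((e.1, true), z)) (L ((e.2, false), z))).card : ℝ)
      ≤ ∑ _z : ZMod p, δ * ((E0 G).card : ℝ) :=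
        sum_le_sum fun z _ => hval fun s => L (s, z)
    _ = δ * ((E0 G).card * p) := by
        rw [sum_const, card_univ, ZMod.card, nsmul_eq_mul]
        ring

/-- two constraints of the base are close -/
def close (r : ℕ) (e e' : U × U) : Prop :=
  ∃ s s' : U × Bool, (s = (e.1, true) ∨ s = (e.2, false)) ∧
    (s' = (e'.1, true) ∨ s' = (e'.2, false)) ∧ s' ∈ ball (dc G) s (2 * r + 1)

theorem dc_degree {Δ : ℕ} (hΔ : ∀ u, (G.neighborSet u).ncard ≤ Δ) (x : U × Bool) :
    ((dc G).neighborSet x).ncard ≤ Δ := by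
  refine le_trans (b := (G.neighborSet x.1).ncard) ?_ (hΔ _)
  refine Set.ncard_le_ncard_of_injOn (fun y => y.1) (fun y hy => hy.1) ?_ (Set.toFinite _)
  intro y hy z hz hyz
  have h1 : x.2 ≠ y.2 := hy.2
  have h2 : x.2 ≠ z.2 := hz.2
  refine Prod.ext hyz ?_
  revert h1 h2
  cases x.2 <;> cases y.2 <;> cases z.2 <;> simp

theorem card_close {Δ : ℕ} (hΔ : ∀ u, (G.neighborSet u).ncard ≤ Δ) (r : ℕ) (e : U × U) :
    ((E0 G).filter fun e' => close G r e e').card ≤ 4 * (Δ + 1) ^ (2 * r + 2) := by
  let B : U × Bool → Finset (U × Bool) := fun s => (ball (dc G) s (2 * r + 1)).toFinset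
  have hB : ∀ s, (B s).card ≤ (Δ + 1) ^ (2 * r + 1) := by
    intro s
    have := ncard_ball (dc_degree G hΔ) s (2 * r + 1)
    rwa [Set.ncard_eq_toFinset_card'] at this
  let F : U × Bool → Finset (U × U) := fun s =>
    ((B s).biUnion fun v => (G.neighborSet v.1).toFinset.image fun y => (v.1, y)) ∪
      ((B s).biUnion fun v => (G.neighborSet v.1).toFinset.image fun y => (y, v.1))
  have hF : ∀ s, (F s).card ≤ 2 * (Δ + 1) ^ (2 * r + 2) := by
    intro s
    have h1 : ((B s).biUnion fun v => (G.neighborSet v.1).toFinset.image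
        fun y => (v.1, y)).card ≤ (Δ + 1) ^ (2 * r + 2) := by
      refine (card_biUnion_le_card_mul _ _ (Δ + 1) fun v _ => ?_).trans ?_
      · refine card_image_le.trans ?_
        have := hΔ v.1
        rw [Set.ncard_eq_toFinset_card'] at this
        omega
      · rw [pow_succ]
        exact Nat.mul_le_mul_right _ (hB s)
    have h2 : ((B s).biUnion fun v => (G.neighborSet v.1).toFinset.image
        fun y => (y, v.1)).card ≤ (Δ + 1) ^ (2 * r + 2) := by
      refine (card_biUnion_le_card_mul _ _ (Δ + 1) fun v _ => ?_).trans ?_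
      · refine card_image_le.trans ?_
        have := hΔ v.1
        rw [Set.ncard_eq_toFinset_card'] at this
        omega
      · rw [pow_succ]
        exact Nat.mul_le_mul_right _ (hB s)
    have := card_union_le ((B s).biUnion fun v => (G.neighborSet v.1).toFinset.image
        fun y => (v.1, y)) ((B s).biUnion fun v => (G.neighborSet v.1).toFinset.image
        fun y => (y, v.1))
    show (_ ∪ _ : Finset (U × U)).card ≤ _
    omega
  have hsub : ((E0 G).filter fun e' => close G r e e') ⊆ F (e.1, true) ∪ F (e.2, false) := by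
    intro e' he'
    rw [mem_filter] at he'
    obtain ⟨h1, s, s', hs, hs', hb⟩ := he'
    have hadj : G.Adj e'.1 e'.2 := by
      unfold E0 at h1
      exact (mem_filter.mp h1).2
    have hmem : e' ∈ F s := by
      show e' ∈ (_ ∪ _ : Finset (U × U))
      rcases hs' with rfl | rfl
      · refine mem_union_left _ (mem_biUnion.mpr ⟨(e'.1, true), ?_, ?_⟩)
        · exact Set.mem_toFinset.mpr hb
        · exact mem_image.mpr ⟨e'.2, Set.mem_toFinset.mpr hadj, rfl⟩
      · refine mem_union_right _ (mem_biUnion.mpr ⟨(e'.2, false), ?_, ?_⟩)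
        · exact Set.mem_toFinset.mpr hb
        · exact mem_image.mpr ⟨e'.1, Set.mem_toFinset.mpr hadj.symm, rfl⟩
    rcases hs with rfl | rfl
    · exact mem_union_left _ hmem
    · exact mem_union_right _ hmem
  refine (card_le_card hsub).trans ((card_union_le _ _).trans ?_)
  have h1 := hF (e.1, true)
  have h2 := hF (e.2, false)
  omega

theorem card_R {Δ : ℕ} (hΔ : ∀ u, (G.neighborSet u).ncard ≤ Δ) (r : ℕ) (t : (U × U) × ZMod p) :
    ((T0 G p).filter fun t' => close G r t.1 t'.1).card ≤ 4 * (Δ + 1) ^ (2 * r + 2) * p := by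
  have h1 : ((T0 G p).filter fun t' => close G r t.1 t'.1) ⊆
      ((E0 G).filter fun e' => close G r t.1 e') ×ˢ (univ : Finset (ZMod p)) := by
    intro t' ht'
    rw [mem_filter] at ht'
    rw [mem_product, mem_filter]
    unfold T0 at ht'
    rw [mem_product] at ht'
    exact ⟨⟨ht'.1.1, ht'.2⟩, mem_univ _⟩
  refine (card_le_card h1).trans ?_
  rw [card_product, card_univ, ZMod.card]
  exact Nat.mul_le_mul_right _ (card_close G hΔ r t.1)

/-- the tuple of the ends of the constraints -/
def tup {k : ℕ} (τ : Fin k → (U × U) × ZMod p) (l : Fin (k + k)) : (U × Bool) × ZMod p :=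
  Sum.elim (fun i => src (τ i)) (fun i => tgt g (τ i)) (finSumFinEquiv.symm l)

omit [Fintype U] [NeZero p] in
theorem tup_spread {k : ℕ} (τ : Fin k → (U × U) × ZMod p) (hτ : ∀ i, G.Adj (τ i).1.1 (τ i).1.2)
    {r : ℕ} (hfar : ∀ i j, i ≠ j → ¬ close G r (τ i).1 (τ j).1) :
    Spread G g κ (tup g τ) r 1 := by
  intro l l'
  obtain ⟨z, rfl⟩ := finSumFinEquiv.surjective l
  obtain ⟨z', rfl⟩ := finSumFinEquiv.surjective l'
  unfold tup
  rw [Equiv.symm_apply_apply, Equiv.symm_apply_apply]
  have hadj : ∀ i, (cov G g κ).gr.Adj (src (τ i)) (tgt g (τ i)) := fun i =>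
    (gr_iff G g κ).mpr (Or.inl ((rel_iff G g).mpr ⟨τ i, hτ i, rfl, rfl⟩))
  have key : ∀ (i j : Fin k) (s s' : U × Bool),
      (s = ((τ i).1.1, true) ∨ s = ((τ i).1.2, false)) →
      (s' = ((τ j).1.1, true) ∨ s' = ((τ j).1.2, false)) →
      s' ∈ ball (dc G) s (2 * r + 1) → i = j := by
    intro i j s s' hs hs' hb
    by_contra hij
    exact hfar i j hij ⟨s, s', hs, hs', hb⟩
  rcases z with i | i <;> rcases z' with j | j <;> intro h
  · have : i = j := key i j _ _ (Or.inl rfl) (Or.inl rfl) h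
    subst this
    exact ball_self _ _ _
  · have : i = j := key i j _ _ (Or.inl rfl) (Or.inr rfl) h
    subst this
    exact ball_adj (hadj i)
  · have : i = j := key i j _ _ (Or.inr rfl) (Or.inl rfl) h
    subst this
    exact ball_adj (hadj i).symm
  · have : i = j := key i j _ _ (Or.inr rfl) (Or.inr rfl) h
    subst this
    exact ball_self _ _ _

/-- the joint laws agree in the cover and in the base -/
theorem same_law [Finite S] {L : ℕ} (hL : ∀ l φ, FCyc G l φ → L < l) {r : ℕ}
    (hr : 2 * r + 2 ≤ L)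
    (P : Process C S ((U × Bool) × ZMod p) r) {k : ℕ} (τ : Fin k → (U × U) × ZMod p)
    (hτ : ∀ i, G.Adj (τ i).1.1 (τ i).1.2)
    (hfar : ∀ i j, i ≠ j → ¬ close G r (τ i).1 (τ j).1) :
    pr (P.law (cov G g κ)) (fun L => ∀ i, SatG g κ sat L (τ i)) =
      pr (P.law (cov G 0 κ)) (fun L => ∀ i, SatG 0 κ sat L (τ i)) := by
  have h1 : SameView r (cov G g κ) (tup g τ) (cov G 0 κ) (tup 0 τ) := by
    refine sameView G g κ 0 (m := 1) (m' := 1) (L := L) (tup_spread G g κ τ hτ hfar)
      (tup_spread G 0 κ τ hτ hfar) (by omega) (by omega) hL ?_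
    intro l
    unfold tup
    rcases finSumFinEquiv.symm l with i | i <;> rfl
  have h2 := P.view h1 (fun s => ∀ i : Fin k, sat (κ (τ i).1) (s (finSumFinEquiv (Sum.inl i)))
    (s (finSumFinEquiv (Sum.inr i))))
  have h3 : ∀ (g : U × U → ZMod p) (i : Fin k),
      tup g τ (finSumFinEquiv (Sum.inl i)) = src (τ i) := by
    intro g i
    unfold tup
    rw [Equiv.symm_apply_apply]
    rfl
  have h4 : ∀ (g : U × U → ZMod p) (i : Fin k),
      tup g τ (finSumFinEquiv (Sum.inr i)) = tgt g (τ i) := by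
    intro g i
    unfold tup
    rw [Equiv.symm_apply_apply]
    rfl
  simp only [h3, h4] at h2
  exact h2

/-- the tail bound for non-signalling processes on covers -/
theorem cover_tail [Finite S] {L : ℕ} (hL : ∀ l φ, FCyc G l φ → L < l) {r : ℕ}
    (hr : 2 * r + 2 ≤ L) {Δ : ℕ} (hΔ : ∀ u, (G.neighborSet u).ncard ≤ Δ)
    (hE : 0 < (E0 G).card)
    {δ ε : ℝ} (hε : 0 < ε)
    (hval : ∀ l : U × Bool → S, (((E0 G).filter fun e =>
      sat (κ e) (l (e.1, true)) (l (e.2, false))).card : ℝ) ≤ δ * (E0 G).card)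
    (P : Process C S ((U × Bool) × ZMod p) r) (k : ℕ) :
    pr (P.law (cov G g κ)) (fun L => ε * numCon (cov G g κ) < (numSatG (cov G g κ) sat L : ℝ)) ≤
      (δ / ε) ^ k + k ^ 2 * (4 * ((Δ : ℝ) + 1) ^ (2 * r + 2) / (E0 G).card) / ε ^ k := by
  have hp0 : 0 < p := Nat.pos_of_ne_zero (NeZero.ne p)
  have : Fintype ((U × Bool) × ZMod p → S) := Fintype.ofFinite _
  have htot : ∀ X, ∑ L, P.law X L = 1 := fun X => by
    rw [← P.total X, finsum_eq_sum_of_fintype]
  have hT : 0 < (T0 G p).card := by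
    rw [card_T0]
    exact Nat.mul_pos hE hp0
  have h1 := tail (T0 G p) (fun L => SatG g κ sat L) (fun L => SatG 0 κ sat L) (k := k)
    (w := P.law (cov G g κ)) (w' := P.law (cov G 0 κ)) (P.nonneg _) (htot _) (P.nonneg _)
    (htot _) (fun t t' => close G r t.1 t'.1) hT (fun t _ => card_R G hΔ r t)
    (fun t ht hfar => same_law G g κ sat hL hr P t
      (fun i => (mem_T0 G).mp (Fintype.mem_piFinset.mp ht i)) hfar) hε
    (base_value G κ sat hval)
  have h2 : ((4 * (Δ + 1) ^ (2 * r + 2) * p : ℕ) : ℝ) / ((T0 G p).card : ℝ) =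
      4 * ((Δ : ℝ) + 1) ^ (2 * r + 2) / (E0 G).card := by
    rw [card_T0]
    push_cast
    have hp : (p : ℝ) ≠ 0 := by exact_mod_cast hp0.ne'
    rw [mul_div_mul_right _ _ hp]
  rw [h2] at h1
  refine le_trans (le_of_eq ?_) h1
  simp only [numCon_cov, numSat_cov]

end Pool.Agent.Q128.NS
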