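import Pool.Agent.Q128.NS.GameDefs
import Pool.Agent.Q128.NS.Tail
import Pool.Agent.TH912.LG.Shift

set_option autoImplicit false

/-! The d-to-1 games: cyclic covers of base games with random shifts. -/

namespace Pool.Agent.Q128.NS

open Classical Finset
open Pool.Agent.TH912.LS (ball mem_ball ball_self ball_symm ball_trans ball_mono ball_adj dc)
open Pool.Agent.W179.Erdos (FCyc)

variable {U : Type} {d q : ℕ}

/-- the constraint maps -/
def cm (d q : ℕ) (g : U × U → ZMod q) (j : U × U → ℕ) (e : U × U) (a : Fin d × ZMod q) : ZMod q :=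
  a.2 + g e + (a.1 : ℕ) * (j e : ℕ)

theorem cm_fiber [NeZero q] (g : U × U → ZMod q) (j : U × U → ℕ) (e : U × U) (b : ZMod q) :
    {a | cm d q g j e a = b}.ncard = d := by
  have h1 : {a | cm d q g j e a = b} =
      (fun i : Fin d => (i, b - g e - (i : ℕ) * (j e : ℕ))) '' Set.univ := by
    ext ⟨i, x⟩
    simp only [Set.mem_ofPred_eq, cm, Set.image_univ, Set.mem_range, Prod.mk.injEq]
    constructor
    · intro h
      exact ⟨i, rfl, by rw [← h]; ring⟩
    · rintro ⟨i', rfl, h⟩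
      rw [← h]
      ring
  rw [h1, Set.ncard_image_of_injective _ (fun i i' h => (Prod.mk.inj h).1), Set.ncard_univ,
    Nat.card_eq_fintype_card, Fintype.card_fin]

theorem cover_dToOne [NeZero q] (G : SimpleGraph U) (g' g : U × U → ZMod q) (j : U × U → ℕ) :
    DToOne d (cov G g' (cm d q g j)) := by
  refine ⟨fun u v h => ?_, fun u v π h b => ?_⟩
  · rw [con_ne] at h
    exact ⟨h.1, h.2.1⟩
  · rw [con_some] at h
    obtain ⟨_, rfl⟩ := h
    exact cm_fiber g j _ b

theorem cover_satisfiable (hd : 1 ≤ d) (G : SimpleGraph U) (g : U × U → ZMod q)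
    (j : U × U → ℕ) : Satisfiable (cov G g (cm d q g j)) := by
  refine ⟨fun x => ((⟨0, hd⟩, x.2), x.2), fun u v π h => ?_⟩
  rw [con_some] at h
  obtain ⟨h, rfl⟩ := h
  show cm d q g j _ (⟨0, hd⟩, u.2) = v.2
  rw [h.2.2.2]
  simp [cm]

theorem cover_separating {Δ : ℕ} (hq : d * Δ < q) (G : SimpleGraph U)
    (g' g : U × U → ZMod q) (j : U × U → ℕ) (hj : ∀ u v v', G.Adj u v → G.Adj u v' → v ≠ v' →
      j (u, v) ≠ j (u, v')) (hjΔ : ∀ e, j e ≤ Δ) : Separating (cov G g' (cm d q g j)) := by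
  intro x y y' π π' a a' hyy h h' haa h1 h2
  rw [con_some] at h h'
  obtain ⟨h, rfl⟩ := h
  obtain ⟨h', rfl⟩ := h'
  have hne : y.1.1 ≠ y'.1.1 := by
    intro he
    apply hyy
    have h5 : y.1 = y'.1 := Prod.ext he (h.2.1.trans h'.2.1.symm)
    refine Prod.ext h5 ?_
    rw [h.2.2.2, h'.2.2.2, he]
  have hjj := hj _ _ _ h.2.2.1 h'.2.2.1 hne
  obtain ⟨i, z⟩ := a
  obtain ⟨i', z'⟩ := a'
  simp only [cm] at h1 h2
  have hii : i ≠ i' := by
    rintro rfl
    apply haa
    have : z = z' := add_right_cancel (add_right_cancel h1)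
    rw [this]
  have h3 : (((((i : ℕ) : ℤ) - ((i' : ℕ) : ℤ)) *
      ((j (x.1.1, y.1.1) : ℤ) - (j (x.1.1, y'.1.1) : ℤ)) : ℤ) : ZMod q) = 0 := by
    push_cast
    linear_combination h1 - h2
  rw [ZMod.intCast_zmod_eq_zero_iff_dvd] at h3
  have h4 := Int.eq_zero_of_abs_lt_dvd h3 (by
    rw [abs_mul]
    have e1 : |((i : ℕ) : ℤ) - ((i' : ℕ) : ℤ)| ≤ d := by
      have := i.isLt
      have := i'.isLt
      rw [abs_le]
      constructor <;> omega
    have e2 : |(j (x.1.1, y.1.1) : ℤ) - (j (x.1.1, y'.1.1) : ℤ)| ≤ Δ := by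
      have := hjΔ (x.1.1, y.1.1)
      have := hjΔ (x.1.1, y'.1.1)
      rw [abs_le]
      constructor <;> omega
    calc |((i : ℕ) : ℤ) - ((i' : ℕ) : ℤ)| *
          |(j (x.1.1, y.1.1) : ℤ) - (j (x.1.1, y'.1.1) : ℤ)| ≤ d * Δ :=
          mul_le_mul e1 e2 (abs_nonneg _) (by positivity)
      _ < q := by exact_mod_cast hq)
  rcases mul_eq_zero.mp h4 with h5 | h5
  · apply hii
    apply Fin.ext
    omega
  · apply hjj
    omega

theorem cover_degree [Finite U] {C : Type} {p : ℕ} (G : SimpleGraph U) (g : U × U → ZMod p)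
    (κ : U × U → C) {Δ : ℕ} (hdeg : ∀ u, (G.neighborSet u).ncard ≤ Δ)
    (x : (U × Bool) × ZMod p) : ((cov G g κ).gr.neighborSet x).ncard ≤ Δ := by
  refine le_trans (b := (G.neighborSet x.1.1).ncard) ?_ (hdeg _)
  refine Set.ncard_le_ncard_of_injOn (fun y => y.1.1) ?_ ?_ (Set.toFinite _)
  · intro y hy
    exact (gr_proj G g κ hy).1
  · intro y hy z hz hyz
    have hyz' : y.1.1 = z.1.1 := hyz
    have e1 := gr_proj G g κ hy
    have e2 := gr_proj G g κ hz
    have hs : y.1.2 = z.1.2 := by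
      have a1 := e1.2
      have a2 := e2.2
      revert a1 a2
      cases x.1.2 <;> cases y.1.2 <;> cases z.1.2 <;> simp
    have h1 : z.1 = y.1 := Prod.ext hyz'.symm hs.symm
    exact (gr_back G g κ (SimpleGraph.Adj.symm hy) hz h1).symm

theorem exists_index [Finite U] (Δ : ℕ) (A : Set U) (hA : A.ncard ≤ Δ) :
    ∃ f : U → ℕ, Set.InjOn f A ∧ ∀ u, f u ≤ Δ := by
  have : Fintype U := Fintype.ofFinite U
  let s : Finset U := A.toFinset
  have hs : s.card ≤ Δ := by rwa [← Set.ncard_eq_toFinset_card']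
  refine ⟨fun v => if h : v ∈ s then ((s.equivFin ⟨v, h⟩ : Fin s.card) : ℕ) else 0, ?_, ?_⟩
  · intro v hv w hw hvw
    have hv' : v ∈ s := Set.mem_toFinset.mpr hv
    have hw' : w ∈ s := Set.mem_toFinset.mpr hw
    simp only [dif_pos hv', dif_pos hw'] at hvw
    have h3 := s.equivFin.injective (Fin.ext hvw)
    exact congrArg Subtype.val h3
  · intro u
    dsimp only
    split_ifs with h
    · exact ((s.equivFin ⟨u, h⟩).isLt.le).trans hs
    · exact Nat.zero_le _

theorem numeric {k d q n M a : ℕ} (hk : 1 ≤ k) (hq : 16 ^ k ≤ q) (hd : d ≤ q)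
    (hM : 8 * k * n < M) (ha : M ≤ k * a) : (d * q * q) ^ (2 * n) * 2 ^ M < q ^ a := by
  have hq2 : 2 ≤ q := by
    refine le_trans ?_ hq
    calc 2 ≤ 16 ^ 1 := by norm_num
      _ ≤ 16 ^ k := Nat.pow_le_pow_right (by norm_num) hk
  apply lt_of_pow_lt_pow_left₀ (4 * k) (Nat.zero_le _)
  rw [mul_pow]
  have h1 : ((d * q * q) ^ (2 * n)) ^ (4 * k) ≤ q ^ (24 * k * n) := by
    rw [← pow_mul]
    calc (d * q * q) ^ (2 * n * (4 * k)) ≤ (q * q * q) ^ (2 * n * (4 * k)) := by gcongr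
      _ = q ^ (24 * k * n) := by
          rw [show q * q * q = q ^ 3 by ring, ← pow_mul]
          congr 1
          ring
  have h2 : (2 ^ M) ^ (4 * k) ≤ q ^ M := by
    calc (2 ^ M) ^ (4 * k) = (16 ^ k) ^ M := by
          rw [← pow_mul, show (16 : ℕ) = 2 ^ 4 by norm_num, ← pow_mul, ← pow_mul]
          congr 1
          ring
      _ ≤ q ^ M := by gcongr
  calc ((d * q * q) ^ (2 * n)) ^ (4 * k) * (2 ^ M) ^ (4 * k) ≤ q ^ (24 * k * n) * q ^ M :=
        Nat.mul_le_mul h1 h2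
    _ = q ^ (24 * k * n + M) := (pow_add _ _ _).symm
    _ < q ^ (a * (4 * k)) := by
        apply Nat.pow_lt_pow_right (by omega)
        nlinarith
    _ = (q ^ a) ^ (4 * k) := pow_mul _ _ _

/-- the base games -/
theorem base_game [Fintype U] [NeZero q] (G : SimpleGraph U) (j : U × U → ℕ) {k : ℕ} (hk : 1 ≤ k)
    (hq : 16 ^ k ≤ q) (hd : d ≤ q) (hM : 8 * k * Fintype.card U < (E0 G).card) :
    ∃ g : U × U → ZMod q, ∀ l : U × Bool → (Fin d × ZMod q) × ZMod q,
      (((E0 G).filter fun e => cm d q g j e (l (e.1, true)).1 = (l (e.2, false)).2).card : ℝ) ≤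
        1 / k * (E0 G).card := by
  obtain ⟨M, hMM⟩ : ∃ M, M = (E0 G).card := ⟨_, rfl⟩
  rw [← hMM] at hM ⊢
  have ha : M < k * (M / k + 1) := by
    have := Nat.lt_mul_div_succ M (show 0 < k by omega)
    simpa using this
  let tL : (U × Bool → (Fin d × ZMod q) × ZMod q) → U × U → ZMod q := fun l e =>
    (l (e.2, false)).2 - (l (e.1, true)).1.2 - ((l (e.1, true)).1.1 : ℕ) * (j e : ℕ)
  have hcardL : Fintype.card (U × Bool → (Fin d × ZMod q) × ZMod q) =
      (d * q * q) ^ (2 * Fintype.card U) := by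
    rw [Fintype.card_fun, Fintype.card_prod, Fintype.card_prod, Fintype.card_prod,
      Fintype.card_bool, ZMod.card, Fintype.card_fin, mul_comm (Fintype.card U) 2]
  obtain ⟨g, hg⟩ := Pool.Agent.TH912.LG.exists_shift (P := ZMod q) (E0 G) tL (M / k + 1) (by
    rw [hcardL, ZMod.card, ← hMM]
    exact numeric hk hq hd hM ha.le) (by rw [ZMod.card]; exact Nat.pos_of_ne_zero (NeZero.ne q))
  refine ⟨g, fun l => ?_⟩
  have h1 : ((E0 G).filter fun e => cm d q g j e (l (e.1, true)).1 = (l (e.2, false)).2).card ≤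
      M / k := by
    refine Nat.lt_succ_iff.mp (lt_of_le_of_lt (card_le_card ?_) (hg l))
    intro e he
    rw [mem_filter] at he ⊢
    refine ⟨he.1, ?_⟩
    show g e = (l (e.2, false)).2 - (l (e.1, true)).1.2 - ((l (e.1, true)).1.1 : ℕ) * (j e : ℕ)
    rw [← he.2]
    unfold cm
    ring
  have h2 : ((M / k : ℕ) : ℝ) ≤ M / k := Nat.cast_div_le
  have h3 : (((E0 G).filter fun e =>
      cm d q g j e (l (e.1, true)).1 = (l (e.2, false)).2).card : ℝ) ≤ ((M / k : ℕ) : ℝ) := by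
    exact_mod_cast h1
  calc (((E0 G).filter fun e =>
      cm d q g j e (l (e.1, true)).1 = (l (e.2, false)).2).card : ℝ) ≤ M / k := h3.trans h2
    _ = 1 / k * M := by ring

end Pool.Agent.Q128.NS
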