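import Pool.Agent.Q128.NS.Defs

set_option autoImplicit false

/-! Label Cover instances with maps `A → B`: definitions. Constraints go from vertices on the side
`true`, labelled by `A`, to vertices on the side `false`, labelled by `B`. -/

namespace Pool.Agent.Q128.NS

variable {A B V : Type}

/-- `d`-to-1 Label Cover instance: the constraint graph is bipartite, and under each constraint map
every label in `B` has exactly `d` preimages in `A`. -/
def DToOne (d : ℕ) (X : Inst (A → B) V) : Prop :=
  (∀ u v, X.con u v ≠ none → X.side u = true ∧ X.side v = false) ∧
  ∀ u v π, X.con u v = some π → ∀ b, {a | π a = b}.ncard = d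

/-- Any two labels of a vertex are identified by at most one of its constraints. -/
def Separating (X : Inst (A → B) V) : Prop :=
  ∀ u v v' π π' a a', v ≠ v' → X.con u v = some π → X.con u v' = some π' → a ≠ a' →
    π a = π a' → π' a ≠ π' a'

/-- A labelling gives every vertex a label in `A` (used on the side `true`) and one in `B` (used on
the side `false`); this is the number of constraints which it satisfies. -/
noncomputable def numSat (X : Inst (A → B) V) (L : V → A × B) : ℕ :=
  {e : V × V | ∃ π, X.con e.1 e.2 = some π ∧ π (L e.1).1 = (L e.2).2}.ncard

/-- value one: some labelling satisfies all constraints -/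
def Satisfiable (X : Inst (A → B) V) : Prop :=
  ∃ L : V → A × B, ∀ u v π, X.con u v = some π → π (L u).1 = (L v).2

end Pool.Agent.Q128.NS
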