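import Pool.Agent.Q128.NS.Game
import Pool.Agent.TH912.LG.Base

set_option autoImplicit false

/-! Non-signalling processes on satisfiable d-to-1 games. -/

namespace Pool.Agent.Q128.NS

open Classical Finset
open Pool.Agent.W179.Erdos (FCyc)

/-- the analytic estimate: both error terms are a small power of the number of vertices -/
theorem analytic {ε a c x C2 D1 nM : ℝ} {r : ℕ} (hε : 0 < ε) (hε1 : ε ≤ 1) (hD1 : 1 ≤ D1)
    (ha : a = 1 / (8 * (1 + Real.log (1 / ε))))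
    (hc0 : 0 < c) (hc1 : c ≤ a / 4) (hc2 : c * (16 * Real.log D1) ≤ 1) (hc3 : c ≤ 1 / 8)
    (hx : 0 ≤ x) (hr : (r : ℝ) ≤ c * x) (hnM : nM ≤ C2 * Real.exp (-x)) (hnM0 : 0 ≤ nM)
    (hlarge : Real.log (1 + 64 * D1 ^ 2 * C2 / ε) ≤ c * x) (hC2 : 0 ≤ C2) :
    ∃ k : ℕ, (1 / 2 : ℝ) ^ k + k ^ 2 * (4 * D1 ^ (2 * r + 2) * nM) / ε ^ k ≤
      Real.exp (-(c * x)) := by
  have hlogε : 0 ≤ Real.log (1 / ε) := Real.log_nonneg (by
    rw [le_div_iff₀ hε]
    linarith)
  have ha0 : 0 < a := by rw [ha]; positivity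
  have ha1 : a ≤ 1 := by
    rw [ha, div_le_one (by positivity)]
    linarith
  have haε : a * Real.log (1 / ε) ≤ 1 / 8 := by
    rw [ha, div_mul_eq_mul_div, one_mul, div_le_div_iff₀ (by positivity) (by norm_num)]
    linarith
  have hlogD : 0 ≤ Real.log D1 := Real.log_nonneg hD1
  have hcx : 0 ≤ c * x := by positivity
  obtain ⟨k, hk⟩ : ∃ k : ℕ, k = ⌈a * x⌉₊ := ⟨_, rfl⟩
  have hk1 : a * x ≤ k := by rw [hk]; exact Nat.le_ceil _
  have hk2 : (k : ℝ) ≤ a * x + 1 := by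
    rw [hk]
    exact (Nat.ceil_lt_add_one (by positivity)).le
  refine ⟨k, ?_⟩
  -- the first term
  have t1 : (1 / 2 : ℝ) ^ k ≤ Real.exp (-(2 * (c * x))) := by
    have h1 : (1 / 2 : ℝ) ^ k = Real.exp (-(k * Real.log 2)) := by
      rw [← Real.log_pow, ← Real.log_inv, Real.exp_log (by positivity), one_div, inv_pow]
    rw [h1]
    apply Real.exp_le_exp.mpr
    have h2 : (1 : ℝ) / 2 ≤ Real.log 2 := by
      have := Real.log_two_gt_d9
      linarith
    have h3 : a * x * (1 / 2) ≤ k * Real.log 2 := by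
      refine mul_le_mul hk1 h2 (by norm_num) (by positivity)
    have h4 : c * x ≤ a / 4 * x := mul_le_mul_of_nonneg_right hc1 hx
    linarith
  -- the second term
  have t2 : (k : ℝ) ^ 2 ≤ 16 * Real.exp (x / 2) := by
    have h1 : (k : ℝ) ≤ 4 * Real.exp (x / 4) := by
      have h2 := Real.add_one_le_exp (x / 4)
      have h3 : a * x ≤ x := by nlinarith
      linarith
    calc (k : ℝ) ^ 2 ≤ (4 * Real.exp (x / 4)) ^ 2 := by gcongr
      _ = 16 * Real.exp (x / 2) := by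
          rw [mul_pow, ← Real.exp_nat_mul]
          norm_num
          ring_nf
  have t3 : D1 ^ (2 * r + 2) ≤ D1 ^ 2 * Real.exp (x / 8) := by
    rw [pow_add, mul_comm]
    refine mul_le_mul_of_nonneg_left ?_ (by positivity)
    have h1 : D1 ^ (2 * r) = Real.exp (2 * r * Real.log D1) := by
      have : Real.exp (2 * r * Real.log D1) = Real.exp (((2 * r : ℕ) : ℝ) * Real.log D1) := by
        push_cast; rfl
      rw [this, ← Real.log_pow, Real.exp_log (by positivity)]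
    rw [h1]
    apply Real.exp_le_exp.mpr
    have h2 : (r : ℝ) * Real.log D1 ≤ c * x * Real.log D1 :=
      mul_le_mul_of_nonneg_right hr hlogD
    have h3 : c * (16 * Real.log D1) * x ≤ 1 * x := mul_le_mul_of_nonneg_right hc2 hx
    nlinarith
  have t4 : 1 / ε ^ k ≤ 1 / ε * Real.exp (x / 8) := by
    have h1 : 1 / ε ^ k = Real.exp (k * Real.log (1 / ε)) := by
      rw [← Real.log_pow, Real.exp_log (by positivity), one_div, one_div, inv_pow]
    have h2 : 1 / ε = Real.exp (Real.log (1 / ε)) := (Real.exp_log (by positivity)).symm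
    rw [h1]
    calc Real.exp (k * Real.log (1 / ε)) ≤ Real.exp (Real.log (1 / ε) + x / 8) := by
          apply Real.exp_le_exp.mpr
          have h3 : (k : ℝ) * Real.log (1 / ε) ≤ (a * x + 1) * Real.log (1 / ε) :=
            mul_le_mul_of_nonneg_right hk2 hlogε
          have h4 : a * Real.log (1 / ε) * x ≤ 1 / 8 * x := mul_le_mul_of_nonneg_right haε hx
          nlinarith
      _ = 1 / ε * Real.exp (x / 8) := by rw [Real.exp_add, ← h2]
  have t5 : (k : ℝ) ^ 2 * (4 * D1 ^ (2 * r + 2) * nM) / ε ^ k ≤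
      64 * D1 ^ 2 * C2 / ε * Real.exp (-(x / 4)) := by
    calc (k : ℝ) ^ 2 * (4 * D1 ^ (2 * r + 2) * nM) / ε ^ k
        = k ^ 2 * (4 * D1 ^ (2 * r + 2) * nM) * (1 / ε ^ k) := by rw [mul_one_div]
      _ ≤ 16 * Real.exp (x / 2) * (4 * (D1 ^ 2 * Real.exp (x / 8)) * (C2 * Real.exp (-x))) *
          (1 / ε * Real.exp (x / 8)) := by gcongr
      _ = 64 * D1 ^ 2 * C2 / ε * (Real.exp (x / 2) * Real.exp (x / 8) * Real.exp (-x) *
          Real.exp (x / 8)) := by ring
      _ = 64 * D1 ^ 2 * C2 / ε * Real.exp (-(x / 4)) := by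
          rw [← Real.exp_add, ← Real.exp_add, ← Real.exp_add]
          congr 2
          ring
  have t6 : Real.exp (-(x / 4)) ≤ Real.exp (-(2 * (c * x))) := by
    apply Real.exp_le_exp.mpr
    nlinarith
  have hC : 0 ≤ 64 * D1 ^ 2 * C2 / ε := by positivity
  calc (1 / 2 : ℝ) ^ k + k ^ 2 * (4 * D1 ^ (2 * r + 2) * nM) / ε ^ k
      ≤ Real.exp (-(2 * (c * x))) + 64 * D1 ^ 2 * C2 / ε * Real.exp (-(2 * (c * x))) :=
        add_le_add t1 (t5.trans (mul_le_mul_of_nonneg_left t6 hC))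
    _ = (1 + 64 * D1 ^ 2 * C2 / ε) * Real.exp (-(2 * (c * x))) := by ring
    _ ≤ Real.exp (c * x) * Real.exp (-(2 * (c * x))) := by
        refine mul_le_mul_of_nonneg_right ?_ (Real.exp_pos _).le
        rw [← Real.log_le_iff_le_exp (by positivity)]
        exact hlarge
    _ = Real.exp (-(c * x)) := by
        rw [← Real.exp_add]
        congr 1
        ring

theorem main (ε : ℝ) (hε : 0 < ε) (hε1 : ε ≤ 1) : ∃ Δ : ℕ, ∀ d : ℕ, 1 ≤ d → ∃ q0 : ℕ,
    ∀ q : ℕ, q0 ≤ q → ∃ c : ℝ, 0 < c ∧ ∀ N : ℕ,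
    ∃ (V : Type) (_ : Fintype V) (X X' : Inst (Fin d × ZMod q → ZMod q) V),
      N ≤ Fintype.card V ∧ DToOne d X ∧ Separating X ∧ Satisfiable X ∧ 0 < numCon X ∧
      (∀ v, (X.gr.neighborSet v).ncard ≤ Δ) ∧
      (DToOne d X' ∧ Separating X' ∧ numCon X' = numCon X ∧
        (∀ v, (X'.gr.neighborSet v).ncard ≤ Δ) ∧ ∀ L, (numSat X' L : ℝ) ≤ ε * numCon X') ∧
      ∀ r : ℕ, (r : ℝ) ≤ c * Real.log (Fintype.card V) →
        (∀ v : V, SameView r X (fun _ : Fin 1 => v) X' (fun _ : Fin 1 => v)) ∧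
        ∀ P : Process (Fin d × ZMod q → ZMod q) ((Fin d × ZMod q) × ZMod q) V r,
          pr (P.law X) (fun L => ε * numCon X < numSat X L) ≤ (Fintype.card V : ℝ) ^ (-c) := by
  obtain ⟨k, hk⟩ : ∃ k : ℕ, k = ⌈2 / ε⌉₊ := ⟨_, rfl⟩
  have hkε : 2 / ε ≤ k := by rw [hk]; exact Nat.le_ceil _
  have hk1 : 1 ≤ k := by
    have h1 : (0 : ℝ) < k := lt_of_lt_of_le (by positivity) hkε
    exact_mod_cast h1
  have hkR : (0 : ℝ) < k := by exact_mod_cast hk1
  have hk2 : 1 / (k : ℝ) ≤ ε / 2 := by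
    rw [div_le_div_iff₀ hkR (by norm_num)]
    rw [div_le_iff₀ hε] at hkε
    linarith
  obtain ⟨b, hb⟩ : ∃ b : ℕ, b = 16 * k + 1 := ⟨_, rfl⟩
  obtain ⟨Δ, hΔ⟩ : ∃ Δ : ℕ, Δ = 32 * (2 * (4 * b) * (8 * (4 * b) + 1)) := ⟨_, rfl⟩
  refine ⟨Δ, fun d hd => ⟨max (16 ^ k) (max d (d * Δ + 1)), fun q hq => ?_⟩⟩
  have hq1 : 16 ^ k ≤ q := (le_max_left _ _).trans hq
  have hq2 : d ≤ q := ((le_max_left _ _).trans (le_max_right _ _)).trans hq
  have hq3 : d * Δ < q := ((le_max_right _ _).trans (le_max_right _ _)).trans hq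
  have hq0 : 0 < q := lt_of_lt_of_le (by positivity) hq1
  have : NeZero q := ⟨hq0.ne'⟩
  have hqR : (1 : ℝ) ≤ q := by exact_mod_cast hq0
  obtain ⟨D, hD⟩ : ∃ D : ℝ, D = (2 * (4 * b : ℕ) * (8 * (4 * b : ℕ) + 1) : ℝ) := ⟨_, rfl⟩
  have hD1 : 1 ≤ D := by
    rw [hD]
    have : (1 : ℝ) ≤ ((4 * b : ℕ) : ℝ) := by
      have : 1 ≤ 4 * b := by omega
      exact_mod_cast this
    nlinarith
  have hlogD : 0 ≤ Real.log D := Real.log_nonneg hD1
  have hlogq : 0 < Real.log (2 * q) := Real.log_pos (by linarith)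
  obtain ⟨C1, hC1⟩ : ∃ C1 : ℝ, C1 = Real.log (2 * q) + 5 * Real.log D := ⟨_, rfl⟩
  have hC1pos : 0 < C1 := by rw [hC1]; positivity
  obtain ⟨a, ha⟩ : ∃ a : ℝ, a = 1 / (8 * (1 + Real.log (1 / ε))) := ⟨_, rfl⟩
  have hlogε : 0 ≤ Real.log (1 / ε) := Real.log_nonneg (by
    rw [le_div_iff₀ hε]
    linarith)
  have ha0 : 0 < a := by rw [ha]; positivity
  obtain ⟨D1, hD1'⟩ : ∃ D1 : ℝ, D1 = (Δ : ℝ) + 1 := ⟨_, rfl⟩
  have hD11 : 1 ≤ D1 := by
    rw [hD1']
    have : (0 : ℝ) ≤ Δ := Nat.cast_nonneg _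
    linarith
  have hlogD1 : 0 ≤ Real.log D1 := Real.log_nonneg hD11
  obtain ⟨c, hc⟩ : ∃ c : ℝ, c = min (min (a / 4) (1 / 8))
      (min (1 / (1 + 16 * Real.log D1)) (1 / (4 * C1))) := ⟨_, rfl⟩
  have hc0 : 0 < c := by
    rw [hc]
    refine lt_min (lt_min (by positivity) (by norm_num)) (lt_min (by positivity) (by positivity))
  have hc1 : c ≤ a / 4 := by rw [hc]; exact (min_le_left _ _).trans (min_le_left _ _)
  have hc3 : c ≤ 1 / 8 := by rw [hc]; exact (min_le_left _ _).trans (min_le_right _ _)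
  have hc2 : c * (16 * Real.log D1) ≤ 1 := by
    have h1 : c ≤ 1 / (1 + 16 * Real.log D1) := by
      rw [hc]; exact (min_le_right _ _).trans (min_le_left _ _)
    rw [le_div_iff₀ (by positivity)] at h1
    nlinarith
  have hc4 : c ≤ 1 / (4 * C1) := by rw [hc]; exact (min_le_right _ _).trans (min_le_right _ _)
  refine ⟨c, hc0, fun N => ?_⟩
  obtain ⟨Z, hZ⟩ : ∃ Z : ℕ, Z = ⌈Real.exp (Real.log (1 + 64 * D1 ^ 2 * q / ε) / c)⌉₊ := ⟨_, rfl⟩
  obtain ⟨g0, hg0N, hg01, hg0Z⟩ : ∃ g0 : ℕ, N ≤ g0 ∧ 5 ≤ g0 ∧ Z ≤ g0 :=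
    ⟨max N (max 5 Z), le_max_left _ _, (le_max_left _ _).trans (le_max_right _ _),
      (le_max_right _ _).trans (le_max_right _ _)⟩
  obtain ⟨U, _, G, h1, h2, h3, h4, h5⟩ := Pool.Agent.TH912.LG.base_edges b g0 (by omega)
  rw [← hD] at h2
  rw [← hΔ] at h3
  obtain ⟨n, hn⟩ : ∃ n : ℕ, n = Fintype.card U := ⟨_, rfl⟩
  have h5' : b * n ≤ 2 * (E0 G).card := by rw [hn]; exact h5
  rw [← hn] at h1 h2
  have hn1 : 1 ≤ n := by omega
  have hM : 8 * k * n < (E0 G).card := by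
    rw [hb] at h5'
    nlinarith
  choose jf hjf using fun u : U => exists_index Δ (G.neighborSet u) (h3 u)
  let j : U × U → ℕ := fun e => jf e.1 e.2
  have hjne : ∀ u v v', G.Adj u v → G.Adj u v' → v ≠ v' → j (u, v) ≠ j (u, v') :=
    fun u v v' hv hv' hne h => hne ((hjf u).1 hv hv' h)
  obtain ⟨g, hg⟩ := base_game (d := d) (q := q) G j hk1 hq1 hq2 (by rw [← hn]; exact hM)
  have hV : Fintype.card ((U × Bool) × ZMod q) = 2 * n * q := by
    rw [Fintype.card_prod, Fintype.card_prod, Fintype.card_bool, ZMod.card, ← hn]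
    ring
  have hE : 0 < (E0 G).card := by omega
  refine ⟨(U × Bool) × ZMod q, inferInstance, cov G g (cm d q g j), cov G 0 (cm d q g j), ?_,
    cover_dToOne G g g j, cover_separating hq3 G g g j hjne (fun e => (hjf e.1).2 _),
    cover_satisfiable hd G g j, ?_, cover_degree G g _ h3, ⟨cover_dToOne G 0 g j,
    cover_separating hq3 G 0 g j hjne (fun e => (hjf e.1).2 _), ?_, cover_degree G 0 _ h3, ?_⟩,
    ?_⟩
  · rw [hV]
    have : 2 * n * 1 ≤ 2 * n * q := Nat.mul_le_mul_left _ hq0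
    omega
  · rw [numCon_cov, card_T0]
    exact Nat.mul_pos hE hq0
  · rw [numCon_cov, numCon_cov]
  · intro L
    have h6 := base_value G (cm d q g j)
      (fun (π : Fin d × ZMod q → ZMod q) (s t : (Fin d × ZMod q) × ZMod q) => π s.1 = t.2)
      (δ := 1 / k) (fun l => by convert hg l) L
    rw [← numSat_cov, ← numCon_cov G 0 (cm d q g j)] at h6
    refine le_trans h6 (mul_le_mul_of_nonneg_right ?_ (Nat.cast_nonneg _))
    linarith
  · intro r hr
    have hnpos : (0 : ℝ) < n := by exact_mod_cast hn1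
    have hn1R : (1 : ℝ) ≤ n := by exact_mod_cast hn1
    have hVpos : (0 : ℝ) < ((2 * n * q : ℕ) : ℝ) := by
      have : 0 < 2 * n * q := by positivity
      exact_mod_cast this
    obtain ⟨x, hx⟩ : ∃ x : ℝ, x = Real.log ((2 * n * q : ℕ) : ℝ) := ⟨_, rfl⟩
    rw [hV, ← hx] at hr
    have hx0 : 0 ≤ x := by
      rw [hx]
      apply Real.log_nonneg
      have : 1 ≤ 2 * n * q := by
        have : 0 < 2 * n * q := by positivity
        omega
      exact_mod_cast this
    have e1 : x = Real.log (2 * q) + Real.log n := by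
      rw [hx, ← Real.log_mul (by positivity) (by positivity)]
      congr 1
      push_cast
      ring
    have e2 : Real.log n ≤ (2 * (g0 : ℕ) + 5) * Real.log D := by
      have := Real.log_le_log hnpos h2
      rw [Real.log_pow] at this
      push_cast at this
      exact this
    have e3 : x ≤ ((g0 : ℕ) + 1) * C1 := by
      rw [e1, hC1]
      have : (0 : ℝ) ≤ ((g0 : ℕ) : ℝ) := by positivity
      nlinarith
    have e4 : (r : ℝ) ≤ ((g0 : ℕ) + 1) / 4 := by
      refine hr.trans ?_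
      calc c * x ≤ 1 / (4 * C1) * (((g0 : ℕ) + 1) * C1) := by gcongr
        _ = ((g0 : ℕ) + 1) / 4 := by field_simp
    have e5 : (4 * r : ℝ) ≤ (g0 : ℕ) + 1 := by linarith
    have e6 : 4 * r ≤ g0 + 1 := by exact_mod_cast e5
    refine ⟨fun v => ?_, fun P => ?_⟩
    · have hs : ∀ g' : U × U → ZMod q, Spread G g' (cm d q g j) (fun _ : Fin 1 => v) r 1 :=
        fun g' _ _ _ => Pool.Agent.TH912.LS.ball_self _ _ _
      exact sameView G g (cm d q g j) 0 (hs g) (hs 0) (L := g0) (by omega) (by omega) h4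
        fun _ => rfl
    have htail := cover_tail G g (cm d q g j)
      (fun (π : Fin d × ZMod q → ZMod q) (s t : (Fin d × ZMod q) × ZMod q) => π s.1 = t.2)
      (L := g0) h4 (r := r) (by omega) h3 hE (δ := 1 / k) hε
      (fun l => by convert hg l) P
    -- the constants
    have hexpx : Real.exp x = ((2 * n * q : ℕ) : ℝ) := by rw [hx]; exact Real.exp_log hVpos
    have hEn : (n : ℝ) ≤ (E0 G).card := by
      have : n ≤ (E0 G).card := by nlinarith
      exact_mod_cast this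
    have hER : (0 : ℝ) < (E0 G).card := by exact_mod_cast hE
    have hE8 : (8 * n : ℝ) ≤ (E0 G).card := by
      have : 8 * n ≤ (E0 G).card := by
        have : 8 * 1 * n ≤ 8 * k * n := by gcongr
        omega
      exact_mod_cast this
    have hnM : (1 : ℝ) / (E0 G).card ≤ q * Real.exp (-x) := by
      rw [Real.exp_neg, hexpx, ← div_eq_mul_inv, div_le_div_iff₀ hER hVpos]
      push_cast
      nlinarith
    have hlarge : Real.log (1 + 64 * D1 ^ 2 * q / ε) ≤ c * x := by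
      have z1 : Real.exp (Real.log (1 + 64 * D1 ^ 2 * q / ε) / c) ≤ Z := by
        rw [hZ]; exact Nat.le_ceil _
      have z2 : (Z : ℝ) ≤ ((2 * n * q : ℕ) : ℝ) := by
        have : Z ≤ 2 * n * q := by
          have : 2 * n * 1 ≤ 2 * n * q := Nat.mul_le_mul_left _ hq0
          omega
        exact_mod_cast this
      have z3 := Real.log_le_log (Real.exp_pos _) (z1.trans z2)
      rw [Real.log_exp, ← hx, div_le_iff₀ hc0] at z3
      linarith
    obtain ⟨m, hm⟩ := analytic (r := r) (nM := 1 / (E0 G).card) hε hε1 hD11 ha hc0 hc1 hc2 hc3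
      hx0 hr hnM (by positivity) hlarge (by positivity)
    have h6 := htail m
    have h7 : (1 / (k : ℝ) / ε) ^ m ≤ (1 / 2) ^ m := by
      apply pow_le_pow_left₀ (by positivity)
      rw [div_le_iff₀ hε]
      linarith
    have h8 : (Fintype.card ((U × Bool) × ZMod q) : ℝ) ^ (-c) = Real.exp (-(c * x)) := by
      rw [hV, Real.rpow_def_of_pos hVpos, ← hx]
      congr 1
      ring
    rw [h8]
    refine le_trans h6 (le_trans ?_ hm)
    refine add_le_add h7 (le_of_eq ?_)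
    rw [hD1', mul_one_div]

end Pool.Agent.Q128.NS
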