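import Pool.Agent.Q128.NS.Defs

set_option autoImplicit false

/-! Randomised local algorithms with independent seeds: definitions. -/

namespace Pool.Agent.Q128.NS

open Pool.Agent.TH912.LS (ball)

/-- The radius-`r` view of `v` in the instance `X` with seeds `ω` is isomorphic to the radius-`r`
view of `v'` in `X'` with seeds `ω'`. -/
def SeedView (r : ℕ) {C A V V' : Type} (X : Inst C V) (ω : V → A) (v : V)
    (X' : Inst C V') (ω' : V' → A) (v' : V') : Prop :=
  ∃ e : ball X.gr v r ≃ ball X'.gr v' r,
    (∀ x : ball X.gr v r, (x : V) = v ↔ (e x : V') = v') ∧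
    (∀ x : ball X.gr v r, X.side (x : V) = X'.side (e x : V')) ∧
    (∀ x y : ball X.gr v r, X.con (x : V) (y : V) = X'.con (e x : V') (e y : V')) ∧
    ∀ x : ball X.gr v r, ω (x : V) = ω' (e x : V')

/-- A local algorithm of radius `r` with seeds from `A`: every vertex has a seed, and the label of a
vertex depends only on the isomorphism type of its radius-`r` view, seeds included. -/
structure LocalRule (C A S : Type) (r : ℕ) where
  out : {V : Type} → Inst C V → (V → A) → V → S
  invariant : ∀ {V V' : Type} (X : Inst C V) (ω : V → A) (v : V)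
    (X' : Inst C V') (ω' : V' → A) (v' : V'),
    SeedView r X ω v X' ω' v' → out X ω v = out X' ω' v'

/-- `p` is a probability distribution on the finite set `A`. -/
def IsDistribution {A : Type} (p : A → ℝ) : Prop := (∀ a, 0 ≤ p a) ∧ ∑ᶠ a, p a = 1

/-- The law of independent seeds with distribution `p`. -/
noncomputable def seeds {A V : Type} (p : A → ℝ) (ω : V → A) : ℝ := ∏ᶠ v, p (ω v)

end Pool.Agent.Q128.NS
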