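import Pool.Agent.Q128.NS.SeedDefs
import Pool.Agent.Q128.NS.Moment
import Pool.Agent.TH912.LS.Lift

set_option autoImplicit false

/-! Randomised local algorithms are non-signalling. -/

namespace Pool.Agent.Q128.NS

open Classical Finset
open Pool.Agent.TH912.LS (ball mem_ball ball_self ball_symm ball_trans ball_mono ball_adj)

variable {C A S V : Type}

/-- an isomorphism of views maps balls to balls -/
theorem ball_of_view {V' : Type} {r k : ℕ} {X : Inst C V} {a : Fin k → V} {X' : Inst C V'}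
    {a' : Fin k → V'} (e : near X a r ≃ near X' a' r)
    (h1 : ∀ (i : Fin k) (x : near X a r), (x : V) = a i → (e x : V') = a' i)
    (h3 : ∀ x y : near X a r, X.con (x : V) (y : V) = X'.con (e x : V') (e y : V'))
    (i : Fin k) (x : near X a r) (hx : (x : V) ∈ ball X.gr (a i) r) :
    (e x : V') ∈ ball X'.gr (a' i) r := by
  obtain ⟨w, hw⟩ := hx
  -- the statement along the reversed walk
  suffices H : ∀ (y z : V) (w : X.gr.Walk y z), z = a i → ∀ (x : near X a r), (x : V) = y →
      w.length ≤ r → ∃ w' : X'.gr.Walk (e x) (a' i), w'.length = w.length by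
    obtain ⟨w', hw'⟩ := H x (a i) w.reverse rfl x rfl (by simpa using hw)
    exact ⟨w'.reverse, by simpa [hw'] using hw⟩
  intro y z w
  induction w with
  | nil =>
    intro hz x hx _
    have h4 := h1 i x (hx.trans hz)
    exact ⟨SimpleGraph.Walk.nil.copy h4.symm rfl |>.copy (by rw [h4]) rfl, by simp⟩
  | @cons y v z h w ih =>
    intro hz x hx hlen
    rw [SimpleGraph.Walk.length_cons] at hlen
    subst hz
    have hv : v ∈ near X a r := ⟨i, ball_symm ⟨w, by omega⟩⟩
    obtain ⟨w', hw'⟩ := ih rfl ⟨v, hv⟩ rfl (by omega)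
    have hadj : X'.gr.Adj (e x) (e ⟨v, hv⟩) := by
      subst hx
      obtain ⟨hne, hc⟩ := h
      refine ⟨?_, ?_⟩
      · intro h5
        apply hne
        have := e.injective (Subtype.ext h5)
        exact congrArg Subtype.val this
      · rw [← h3 x ⟨v, hv⟩, ← h3 ⟨v, hv⟩ x]
        exact hc
    exact ⟨SimpleGraph.Walk.cons hadj w', by
      rw [SimpleGraph.Walk.length_cons, SimpleGraph.Walk.length_cons, hw']⟩

theorem out_of_view {V' : Type} {r k : ℕ} (R : LocalRule C A S r) {X : Inst C V}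
    {a : Fin k → V} {X' : Inst C V'}
    {a' : Fin k → V'} (e : near X a r ≃ near X' a' r)
    (h1 : ∀ (i : Fin k) (x : near X a r), (x : V) = a i → (e x : V') = a' i)
    (h2 : ∀ x : near X a r, X.side (x : V) = X'.side (e x : V'))
    (h3 : ∀ x y : near X a r, X.con (x : V) (y : V) = X'.con (e x : V') (e y : V'))
    (ω : V → A) (ω' : V' → A) (h4 : ∀ x : near X a r, ω (x : V) = ω' (e x : V')) (i : Fin k) :
    R.out X ω (a i) = R.out X' ω' (a' i) := by
  apply R.invariant
  have hsub : ∀ x, x ∈ ball X.gr (a i) r → x ∈ near X a r := fun x hx => ⟨i, hx⟩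
  have hsub' : ∀ x, x ∈ ball X'.gr (a' i) r → x ∈ near X' a' r := fun x hx => ⟨i, hx⟩
  have hai : (e ⟨a i, hsub _ (ball_self _ _ _)⟩ : V') = a' i := h1 i _ rfl
  have h1' : ∀ (j : Fin k) (x : near X' a' r), (x : V') = a' j → (e.symm x : V) = a j := by
    intro j x hx
    have haj : (e ⟨a j, j, ball_self _ _ _⟩ : V') = a' j := h1 j _ rfl
    have : x = e ⟨a j, j, ball_self _ _ _⟩ := Subtype.ext (hx.trans haj.symm)
    rw [this, e.symm_apply_apply]
  have h3' : ∀ x y : near X' a' r, X'.con (x : V') (y : V') =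
      X.con (e.symm x : V) (e.symm y : V) := by
    intro x y
    rw [h3, e.apply_symm_apply, e.apply_symm_apply]
  let f : ball X.gr (a i) r → ball X'.gr (a' i) r := fun x =>
    ⟨e ⟨x, hsub _ x.2⟩, ball_of_view e h1 h3 i ⟨x, hsub _ x.2⟩ x.2⟩
  let f' : ball X'.gr (a' i) r → ball X.gr (a i) r := fun x =>
    ⟨e.symm ⟨x, hsub' _ x.2⟩, ball_of_view e.symm h1' h3' i ⟨x, hsub' _ x.2⟩ x.2⟩
  refine ⟨⟨f, f', ?_, ?_⟩, ?_, ?_, ?_, ?_⟩
  · intro x
    apply Subtype.ext
    show (e.symm ⟨(e ⟨x, hsub _ x.2⟩ : V'), _⟩ : V) = x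
    have : (⟨(e ⟨x, hsub _ x.2⟩ : V'), hsub' _ (f x).2⟩ : near X' a' r) = e ⟨x, hsub _ x.2⟩ :=
      Subtype.ext rfl
    rw [this, e.symm_apply_apply]
  · intro x
    apply Subtype.ext
    show (e ⟨(e.symm ⟨x, hsub' _ x.2⟩ : V), _⟩ : V') = x
    have : (⟨(e.symm ⟨x, hsub' _ x.2⟩ : V), hsub _ (f' x).2⟩ : near X a r) =
        e.symm ⟨x, hsub' _ x.2⟩ := Subtype.ext rfl
    rw [this, e.apply_symm_apply]
  · intro x
    constructor
    · intro hx
      exact h1 i _ hx
    · intro hx
      have hx' : (e ⟨x, hsub _ x.2⟩ : V') = a' i := hx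
      have h5 : e ⟨x, hsub _ x.2⟩ = e ⟨a i, hsub _ (ball_self _ _ _)⟩ :=
        Subtype.ext (hx'.trans hai.symm)
      exact congrArg Subtype.val (e.injective h5)
  · intro x
    exact h2 ⟨x, hsub _ x.2⟩
  · intro x y
    exact h3 ⟨x, hsub _ x.2⟩ ⟨y, hsub _ y.2⟩
  · intro x
    exact h4 ⟨x, hsub _ x.2⟩

section law

variable [Fintype A] [Fintype V]

theorem seeds_eq (p : A → ℝ) (ω : V → A) : seeds p ω = ∏ v, p (ω v) :=
  finprod_eq_prod_of_fintype _

theorem seeds_nonneg {p : A → ℝ} (hp : IsDistribution p) (ω : V → A) : 0 ≤ seeds p ω := by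
  rw [seeds_eq]
  exact prod_nonneg fun v _ => hp.1 _

theorem seeds_total {p : A → ℝ} (hp : IsDistribution p) : ∑ ω : V → A, seeds p ω = 1 := by
  have h0 : ∑ a, p a = 1 := by rw [← finsum_eq_sum_of_fintype]; exact hp.2
  have h := Finset.prod_univ_sum (fun _ : V => (univ : Finset A)) (fun _ a => p a)
  rw [Fintype.piFinset_univ] at h
  simp only [seeds_eq]
  rw [← h, h0]
  simp

theorem seeds_total' {A V : Type} [Finite A] [Finite V] {p : A → ℝ} (hp : IsDistribution p) :
    ∑ᶠ ω : V → A, seeds p ω = 1 := by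
  have : Fintype A := Fintype.ofFinite _
  have : Fintype V := Fintype.ofFinite _
  rw [finsum_eq_sum_of_fintype]
  exact seeds_total hp

theorem seeds_perm (p : A → ℝ) (ω : V → A) (π : V ≃ V) : seeds p (fun v => ω (π v)) = seeds p ω := by
  rw [seeds_eq, seeds_eq]
  exact Equiv.prod_comp π fun v => p (ω v)

theorem pr_push [Fintype S] (w : (V → A) → ℝ) (f : (V → A) → V → S) (E : (V → S) → Prop) :
    pr (fun L => pr w (fun ω => f ω = L)) E = pr w (fun ω => E (f ω)) := by
  have : Fintype (V → S) := Fintype.ofFinite _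
  rw [pr_fiber f E, pr_eq]

end law

/-- the process of a randomised local algorithm -/
theorem ofSeeds [Finite A] [Finite S] [Finite V] {r : ℕ} (R : LocalRule C A S r) {p : A → ℝ}
    (hp : IsDistribution p) : ∃ P : Process C S V r, ∀ (X : Inst C V) (E : (V → S) → Prop),
      pr (P.law X) E = pr (seeds p) (fun ω => E (R.out X ω)) := by
  have : Fintype A := Fintype.ofFinite _
  have : Fintype V := Fintype.ofFinite _
  have : Fintype S := Fintype.ofFinite _
  have : Fintype (V → S) := Fintype.ofFinite _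
  have : Fintype (V → A) := Fintype.ofFinite _
  have htot := seeds_total' (V := V) hp
  have hpush : ∀ (X : Inst C V) (E : (V → S) → Prop),
      pr (fun L => pr (seeds p) (fun ω => R.out X ω = L)) E =
        pr (seeds p) (fun ω => E (R.out X ω)) := fun X E => pr_push (seeds p) (R.out X) E
  refine ⟨⟨fun X L => pr (seeds p) (fun ω => R.out X ω = L), ?_, ?_, ?_⟩, fun X E => hpush X E⟩
  · intro X L
    exact pr_nonneg (fun ω => seeds_nonneg hp ω) _
  · intro X
    have h1 := hpush X (fun _ => True)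
    simp only [pr, if_true] at h1
    simp only [pr]
    rw [h1]
    exact htot
  · rintro X X' k a a' ⟨e, h1, h2, h3⟩ s
    rw [hpush, hpush]
    -- extend the isomorphism to a permutation of the vertices
    let π : V ≃ V := Equiv.extendSubtype e
    have hπ : ∀ x : near X a r, π (x : V) = (e x : V) := fun x =>
      Equiv.extendSubtype_apply_of_mem e x x.2
    rw [pr_eq, pr_eq]
    refine Fintype.sum_equiv (Equiv.arrowCongr π (Equiv.refl A)) _ _ fun ω => ?_
    have h5 : ∀ i, R.out X ω (a i) =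
        R.out X' ((Equiv.arrowCongr π (Equiv.refl A)) ω) (a' i) := by
      intro i
      refine out_of_view R e h1 h2 h3 _ _ (fun x => ?_) i
      show ω x = ω (π.symm (e x))
      rw [← hπ, π.symm_apply_apply]
    have h6 : seeds p ((Equiv.arrowCongr π (Equiv.refl A)) ω) = seeds p ω := by
      exact seeds_perm p ω π.symm
    simp only [h5, h6]

end Pool.Agent.Q128.NS
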