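import Pool.Agent.Q128.NS.Defs

set_option autoImplicit false

/-! 2-to-1 games with the label set `Q` on both sides: definitions. Constraints go from vertices on
the side `true` to vertices on the side `false`. -/

namespace Pool.Agent.Q128.NS.Two

open Pool.Agent.Q128.NS

variable {Q V : Type}

/-- 2-to-1 game: the constraint graph is bipartite, and every fibre of every constraint map has at
most two elements. -/
def TwoToOne (X : Inst (Q → Q) V) : Prop :=
  (∀ u v, X.con u v ≠ none → X.side u = true ∧ X.side v = false) ∧
  ∀ u v π, X.con u v = some π → ∀ b, {a | π a = b}.ncard ≤ 2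

/-- Any two labels of a vertex are identified by at most one of its constraints. -/
def Separating (X : Inst (Q → Q) V) : Prop :=
  ∀ u v v' π π' a a', v ≠ v' → X.con u v = some π → X.con u v' = some π' → a ≠ a' →
    π a = π a' → π' a ≠ π' a'

/-- the number of constraints satisfied by the labelling `L` -/
noncomputable def numSat (X : Inst (Q → Q) V) (L : V → Q) : ℕ :=
  {e : V × V | ∃ π, X.con e.1 e.2 = some π ∧ π (L e.1) = L e.2}.ncard

/-- value one: some labelling satisfies all constraints -/
def Satisfiable (X : Inst (Q → Q) V) : Prop :=
  ∃ L : V → Q, ∀ u v π, X.con u v = some π → π (L u) = L v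

end Pool.Agent.Q128.NS.Two
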